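import Mathlib

set_option autoImplicit false
set_option linter.unusedSectionVars false

open ContinuousLinearMap InnerProductSpace

namespace Pool.Agent.Helper406.HK

noncomputable section

variable {H K : Type*} [NormedAddCommGroup H] [InnerProductSpace ℂ H] [CompleteSpace H]
  [NormedAddCommGroup K] [InnerProductSpace ℂ K] [CompleteSpace K]

/-- `R = π π†`. -/
def Rop (π : K →L[ℂ] H) : H →L[ℂ] H := π ∘L (adjoint π)

/-- `T = π† π`. -/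
def Top (π : K →L[ℂ] H) : K →L[ℂ] K := (adjoint π) ∘L π

/-- `P ε = 1 - (1-ε) T`. -/
def Pop (π : K →L[ℂ] H) (ε : ℝ) : K →L[ℂ] K := 1 - ((1 - ε : ℝ) : ℂ) • Top π

theorem Rop_pos (π : K →L[ℂ] H) : 0 ≤ Rop π := by
  rw [ContinuousLinearMap.nonneg_iff_isPositive]
  exact isPositive_self_comp_adjoint π

theorem Rop_sa (π : K →L[ℂ] H) : IsSelfAdjoint (Rop π) :=
  (isPositive_self_comp_adjoint π).isSelfAdjoint

theorem Top_pos (π : K →L[ℂ] H) : (Top π).IsPositive :=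
  isPositive_adjoint_comp_self π

theorem Rop_norm {π : K →L[ℂ] H} (hπ : ‖π‖ ≤ 1) : ‖Rop π‖ ≤ 1 := by
  calc ‖Rop π‖ ≤ ‖π‖ * ‖adjoint π‖ := opNorm_comp_le _ _
    _ = ‖π‖ * ‖π‖ := by rw [LinearIsometryEquiv.norm_map]
    _ ≤ 1 * 1 := by gcongr
    _ = 1 := one_mul 1

theorem Top_norm {π : K →L[ℂ] H} (hπ : ‖π‖ ≤ 1) : ‖Top π‖ ≤ 1 := by
  calc ‖Top π‖ ≤ ‖adjoint π‖ * ‖π‖ := opNorm_comp_le _ _
    _ = ‖π‖ * ‖π‖ := by rw [LinearIsometryEquiv.norm_map]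
    _ ≤ 1 * 1 := by gcongr
    _ = 1 := one_mul 1

theorem spec_Rop {π : K →L[ℂ] H} (hπ : ‖π‖ ≤ 1) {r : ℝ} (hr : r ∈ spectrum ℝ (Rop π)) :
    0 ≤ r ∧ r ≤ 1 := by
  refine ⟨spectrum_nonneg_of_nonneg (Rop_pos π) hr, ?_⟩
  by_contra hlt
  push Not at hlt
  apply hr
  have h1 : ‖(r⁻¹ : ℝ) • Rop π‖ < 1 := by
    rw [norm_smul]
    have hr0 : 0 < r := by linarith
    rw [Real.norm_eq_abs, abs_of_pos (inv_pos.mpr hr0)]
    calc r⁻¹ * ‖Rop π‖ ≤ r⁻¹ * 1 := by gcongr; exact Rop_norm hπ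
      _ < 1 := by rw [mul_one]; exact inv_lt_one_of_one_lt₀ hlt
  have h2 : IsUnit (1 - (r⁻¹ : ℝ) • Rop π) := isUnit_one_sub_of_norm_lt_one h1
  have hr0 : r ≠ 0 := by linarith
  have h3 : algebraMap ℝ (H →L[ℂ] H) r - Rop π = r • (1 - (r⁻¹ : ℝ) • Rop π) := by
    rw [smul_sub, smul_smul, mul_inv_cancel₀ hr0, one_smul, Algebra.algebraMap_eq_smul_one]
  show IsUnit (algebraMap ℝ (H →L[ℂ] H) r - Rop π)
  rw [h3]
  exact (isUnit_smul_iff (Units.mk0 r hr0) _).mpr h2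

theorem Pop_apply (π : K →L[ℂ] H) (ε : ℝ) (k : K) :
    Pop π ε k = k - ((1 - ε : ℝ) : ℂ) • Top π k := by
  simp [Pop]

theorem inner_Top (π : K →L[ℂ] H) (k l : K) : inner ℂ k (Top π l) = inner ℂ (π k) (π l) := by
  unfold Top
  rw [comp_apply, adjoint_inner_right]

/-- The form `E_ε(k) = ‖k‖² - (1-ε) ‖π k‖²`. -/
def Een (π : K →L[ℂ] H) (ε : ℝ) (k : K) : ℝ := ‖k‖ ^ 2 - (1 - ε) * ‖π k‖ ^ 2

theorem inner_Pop (π : K →L[ℂ] H) (ε : ℝ) (k : K) :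
    inner ℂ k (Pop π ε k) = ((Een π ε k : ℝ) : ℂ) := by
  rw [Pop_apply, inner_sub_right, inner_smul_right, inner_Top]
  simp only [inner_self_eq_norm_sq_to_K, Een]
  push_cast
  rfl

theorem Een_nonneg {π : K →L[ℂ] H} (hπ : ‖π‖ ≤ 1) {ε : ℝ} (_h0 : 0 < ε) (h1 : ε ≤ 1) (k : K) :
    ε * ‖k‖ ^ 2 ≤ Een π ε k := by
  unfold Een
  have h2 : ‖π k‖ ≤ ‖k‖ := by
    calc ‖π k‖ ≤ ‖π‖ * ‖k‖ := le_opNorm _ _
      _ ≤ 1 * ‖k‖ := by gcongr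
      _ = ‖k‖ := one_mul _
  have h3 : ‖π k‖ ^ 2 ≤ ‖k‖ ^ 2 := by gcongr
  nlinarith

theorem Pop_isUnit {π : K →L[ℂ] H} (hπ : ‖π‖ ≤ 1) {ε : ℝ} (h0 : 0 < ε) (h1 : ε ≤ 1) :
    IsUnit (Pop π ε) := by
  unfold Pop
  apply isUnit_one_sub_of_norm_lt_one
  rw [norm_smul]
  have h2 : ‖((1 - ε : ℝ) : ℂ)‖ = 1 - ε := by
    rw [Complex.norm_real, Real.norm_eq_abs, abs_of_nonneg (by linarith)]
  rw [h2]
  calc (1 - ε) * ‖Top π‖ ≤ (1 - ε) * 1 := by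
        apply mul_le_mul_of_nonneg_left (Top_norm hπ) (by linarith)
    _ < 1 := by linarith

/-- inverse of `P ε` -/
def Pinv (π : K →L[ℂ] H) (ε : ℝ) : K →L[ℂ] K := Ring.inverse (Pop π ε)

theorem Pop_Pinv {π : K →L[ℂ] H} (hπ : ‖π‖ ≤ 1) {ε : ℝ} (h0 : 0 < ε) (h1 : ε ≤ 1) :
    Pop π ε * Pinv π ε = 1 := Ring.mul_inverse_cancel _ (Pop_isUnit hπ h0 h1)

theorem Pinv_Pop {π : K →L[ℂ] H} (hπ : ‖π‖ ≤ 1) {ε : ℝ} (h0 : 0 < ε) (h1 : ε ≤ 1) :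
    Pinv π ε * Pop π ε = 1 := Ring.inverse_mul_cancel _ (Pop_isUnit hπ h0 h1)

/-- `M(ε) = ⟨g, P_ε⁻¹ g⟩`. -/
def Mf (π : K →L[ℂ] H) (g : K) (ε : ℝ) : ℝ := (inner ℂ g (Pinv π ε g)).re

theorem Pop_symm (π : K →L[ℂ] H) (ε : ℝ) (k l : K) :
    inner ℂ (Pop π ε k) l = inner ℂ k (Pop π ε l) := by
  rw [Pop_apply, Pop_apply, inner_sub_right, inner_sub_left, inner_smul_right, inner_smul_left,
    inner_Top, ← inner_conj_symm (Top π k) l, inner_Top, inner_conj_symm, Complex.conj_ofReal]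

theorem inner_Pinv {π : K →L[ℂ] H} (hπ : ‖π‖ ≤ 1) {ε : ℝ} (h0 : 0 < ε) (h1 : ε ≤ 1) (g : K) :
    inner ℂ g (Pinv π ε g) = ((Een π ε (Pinv π ε g) : ℝ) : ℂ) := by
  have h2 : Pop π ε (Pinv π ε g) = g := by
    have : (Pop π ε * Pinv π ε) g = g := by rw [Pop_Pinv hπ h0 h1]; rfl
    exact this
  rw [← inner_Pop, ← Pop_symm, h2]

theorem Mf_eq {π : K →L[ℂ] H} (hπ : ‖π‖ ≤ 1) {ε : ℝ} (h0 : 0 < ε) (h1 : ε ≤ 1) (g : K) :
    Mf π g ε = Een π ε (Pinv π ε g) := by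
  unfold Mf
  rw [inner_Pinv hπ h0 h1, Complex.ofReal_re]

theorem Mf_nonneg {π : K →L[ℂ] H} (hπ : ‖π‖ ≤ 1) {ε : ℝ} (h0 : 0 < ε) (h1 : ε ≤ 1) (g : K) :
    0 ≤ Mf π g ε := by
  rw [Mf_eq hπ h0 h1]
  exact le_trans (by positivity) (Een_nonneg hπ h0 h1 _)

/-- upper variational bound -/
theorem Mf_le {π : K →L[ℂ] H} (hπ : ‖π‖ ≤ 1) {ε : ℝ} (h0 : 0 < ε) (h1 : ε ≤ 1) (g : K)
    {C : ℝ} (hC0 : 0 ≤ C) (hC : ∀ k : K, ‖(inner ℂ g k : ℂ)‖ ^ 2 ≤ C * Een π ε k) :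
    Mf π g ε ≤ C := by
  have h2 := hC (Pinv π ε g)
  rw [inner_Pinv hπ h0 h1, ← Mf_eq hπ h0 h1, Complex.norm_real, Real.norm_eq_abs, sq_abs] at h2
  have h3 := Mf_nonneg hπ h0 h1 g
  rcases h3.eq_or_lt with h4 | h4
  · rw [← h4]; exact hC0
  · nlinarith

/-- lower variational bound -/
theorem le_Mf {π : K →L[ℂ] H} (hπ : ‖π‖ ≤ 1) {ε : ℝ} (h0 : 0 < ε) (h1 : ε ≤ 1) (g k : K)
    (hk : inner ℂ g k = (1 : ℂ)) : 1 / Een π ε k ≤ Mf π g ε := by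
  have hk0 : k ≠ 0 := by
    rintro rfl
    simp at hk
  have hE : 0 < Een π ε k := by
    have : 0 < ‖k‖ := norm_pos_iff.mpr hk0
    exact lt_of_lt_of_le (by positivity) (Een_nonneg hπ h0 h1 k)
  set E := Een π ε k with hEdef
  set h := Pinv π ε g with hh
  have hP : Pop π ε h = g := by
    have : (Pop π ε * Pinv π ε) g = g := by rw [Pop_Pinv hπ h0 h1]; rfl
    exact this
  set s : ℂ := ((1 / E : ℝ) : ℂ) with hs
  have key : ((Een π ε (h - s • k) : ℝ) : ℂ) = ((Mf π g ε - 1 / E : ℝ) : ℂ) := by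
    rw [← inner_Pop, map_sub, hP, map_smul, inner_sub_left, inner_sub_right, inner_sub_right,
      inner_smul_left, inner_smul_right, inner_smul_left, inner_smul_right, inner_Pop, ← hEdef,
      ← Pop_symm, hP, hk, ← inner_conj_symm h g, inner_Pinv hπ h0 h1, Complex.conj_ofReal,
      ← Mf_eq hπ h0 h1, ← inner_conj_symm k g, hk, hs, Complex.conj_ofReal]
    have hE' : (E : ℂ) ≠ 0 := by exact_mod_cast hE.ne'
    push_cast
    simp only [map_one]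
    field_simp
    ring
  have h5 : Een π ε (h - s • k) = Mf π g ε - 1 / E := by exact_mod_cast key
  have h6 : 0 ≤ Een π ε (h - s • k) := le_trans (by positivity) (Een_nonneg hπ h0 h1 _)
  linarith

/-- the difference function -/
def dfun (ε ε' : ℝ) (r : ℝ) : ℝ := (ε' - ε) / ((1 - (1 - ε) * r) * (1 - (1 - ε') * r))

theorem den_pos {ε r : ℝ} (h0 : 0 < ε) (hr0 : 0 ≤ r) (hr1 : r ≤ 1) :
    0 < 1 - (1 - ε) * r := by
  rcases le_or_gt r (1 / 2) with h | h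
  · nlinarith [mul_nonneg h0.le hr0]
  · nlinarith [mul_pos h0 (by linarith : (0 : ℝ) < r)]

theorem dfun_cont {π : K →L[ℂ] H} (hπ : ‖π‖ ≤ 1) {ε ε' : ℝ} (h0 : 0 < ε) (h0' : 0 < ε') :
    ContinuousOn (dfun ε ε') (spectrum ℝ (Rop π)) := by
  unfold dfun
  apply ContinuousOn.div (by fun_prop) (by fun_prop)
  intro r hr
  obtain ⟨hr0, hr1⟩ := spec_Rop hπ hr
  exact (mul_pos (den_pos h0 hr0 hr1) (den_pos h0' hr0 hr1)).ne'

theorem cfc_lin (π : K →L[ℂ] H) (ε : ℝ) :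
    cfc (fun r : ℝ => 1 - (1 - ε) * r) (Rop π) = 1 - ((1 - ε : ℝ) : ℂ) • Rop π := by
  have hsa := Rop_sa π
  rw [cfc_sub (fun _ => (1 : ℝ)) (fun r => (1 - ε) * r) (Rop π), cfc_const_one ℝ (Rop π),
    cfc_const_mul_id (1 - ε) (Rop π)]
  congr 1

theorem Aop_comp (π : K →L[ℂ] H) (ε : ℝ) (k : K) :
    (1 - ((1 - ε : ℝ) : ℂ) • Rop π) (π k) = π (Pop π ε k) := by
  simp [Pop_apply, Rop, Top]

theorem cfc_dfun_apply {π : K →L[ℂ] H} (hπ : ‖π‖ ≤ 1) {ε ε' : ℝ} (h0 : 0 < ε) (h1 : ε ≤ 1)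
    (h0' : 0 < ε') (h1' : ε' ≤ 1) (k : K) :
    cfc (dfun ε ε') (Rop π) (π k) = ((ε' - ε : ℝ) : ℂ) • π (Pinv π ε (Pinv π ε' k)) := by
  have hsa := Rop_sa π
  have h2 : cfc (dfun ε ε') (Rop π) * ((1 - ((1 - ε' : ℝ) : ℂ) • Rop π) *
      (1 - ((1 - ε : ℝ) : ℂ) • Rop π)) = ((ε' - ε : ℝ) : ℂ) • 1 := by
    rw [← cfc_lin, ← cfc_lin, ← cfc_mul _ _ (Rop π), ← cfc_mul _ _ (Rop π) (dfun_cont hπ h0 h0')]
    have h3 : (spectrum ℝ (Rop π)).EqOn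
        (fun x => dfun ε ε' x * ((1 - (1 - ε') * x) * (1 - (1 - ε) * x))) (fun _ => (ε' - ε)) := by
      intro r hr
      obtain ⟨hr0, hr1⟩ := spec_Rop hπ hr
      have ha := (den_pos h0 hr0 hr1).ne'
      have hb := (den_pos h0' hr0 hr1).ne'
      simp only [dfun]
      rw [div_mul_eq_mul_div, div_eq_iff (mul_ne_zero ha hb)]
      ring
    rw [cfc_congr h3, cfc_const (ε' - ε) (Rop π), Algebra.algebraMap_eq_smul_one]
    rfl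
  have h4 : Pop π ε (Pinv π ε (Pinv π ε' k)) = Pinv π ε' k := by
    have : (Pop π ε * Pinv π ε) (Pinv π ε' k) = Pinv π ε' k := by rw [Pop_Pinv hπ h0 h1]; rfl
    exact this
  have h5 : Pop π ε' (Pinv π ε' k) = k := by
    have : (Pop π ε' * Pinv π ε') k = k := by rw [Pop_Pinv hπ h0' h1']; rfl
    exact this
  have h6 := congrArg (fun A : H →L[ℂ] H => A (π (Pinv π ε (Pinv π ε' k)))) h2
  have h7 : (cfc (dfun ε ε') (Rop π) * ((1 - ((1 - ε' : ℝ) : ℂ) • Rop π) *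
      (1 - ((1 - ε : ℝ) : ℂ) • Rop π))) (π (Pinv π ε (Pinv π ε' k)))
      = cfc (dfun ε ε') (Rop π) ((1 - ((1 - ε' : ℝ) : ℂ) • Rop π)
        ((1 - ((1 - ε : ℝ) : ℂ) • Rop π) (π (Pinv π ε (Pinv π ε' k))))) := rfl
  rw [h7, Aop_comp, h4, Aop_comp, h5] at h6
  rw [h6]
  rfl

theorem Mf_sub {π : K →L[ℂ] H} (hπ : ‖π‖ ≤ 1) {ε ε' : ℝ} (h0 : 0 < ε) (h1 : ε ≤ 1)
    (h0' : 0 < ε') (h1' : ε' ≤ 1) (g : K) :
    (inner ℂ (π g) (cfc (dfun ε ε') (Rop π) (π g)) : ℂ).re = Mf π g ε - Mf π g ε' := by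
  rw [cfc_dfun_apply hπ h0 h1 h0' h1', inner_smul_right, ← inner_Top]
  have h2 : ((ε' - ε : ℝ) : ℂ) • Top π (Pinv π ε (Pinv π ε' g)) = Pinv π ε g - Pinv π ε' g := by
    have e1 : Pop π ε' - Pop π ε = ((ε' - ε : ℝ) : ℂ) • Top π := by
      unfold Pop
      have : ((ε' - ε : ℝ) : ℂ) = ((1 - ε : ℝ) : ℂ) - ((1 - ε' : ℝ) : ℂ) := by push_cast; ring
      rw [this, sub_smul]
      abel
    have e2 : Commute (Top π) (Pop π ε) := by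
      unfold Pop
      exact (Commute.one_right _).sub_right ((Commute.refl _).smul_right _)
    have e3 : Commute (Top π) (Pinv π ε) := by
      have q1 : Pinv π ε * (Pop π ε * Top π) * Pinv π ε
          = Pinv π ε * (Top π * Pop π ε) * Pinv π ε := by rw [e2.eq]
      rw [← mul_assoc, Pinv_Pop hπ h0 h1, one_mul, ← mul_assoc, mul_assoc _ (Pop π ε),
        Pop_Pinv hπ h0 h1, mul_one] at q1
      exact q1
    have e5 : ((ε' - ε : ℝ) : ℂ) • (Top π * Pinv π ε * Pinv π ε') = Pinv π ε - Pinv π ε' := by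
      rw [e3.eq, mul_assoc, ← mul_smul_comm, ← smul_mul_assoc, ← e1, sub_mul, mul_sub,
        Pop_Pinv hπ h0' h1', mul_one, ← mul_assoc, Pinv_Pop hπ h0 h1, one_mul]
    have := congrArg (fun A : K →L[ℂ] K => A g) e5
    exact this
  rw [← inner_smul_right, h2, inner_sub_right, Complex.sub_re]
  rfl

theorem inner_cfc_mono {π : K →L[ℂ] H} (hπ : ‖π‖ ≤ 1) {f f' : ℝ → ℝ}
    (hf : ContinuousOn f (spectrum ℝ (Rop π))) (hf' : ContinuousOn f' (spectrum ℝ (Rop π)))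
    (h : ∀ r, 0 ≤ r → r ≤ 1 → f r ≤ f' r) (x : H) :
    (inner ℂ x (cfc f (Rop π) x) : ℂ).re ≤ (inner ℂ x (cfc f' (Rop π) x) : ℂ).re := by
  have h1 : cfc f (Rop π) ≤ cfc f' (Rop π) := by
    apply cfc_mono _ hf hf'
    intro r hr
    obtain ⟨hr0, hr1⟩ := spec_Rop hπ hr
    exact h r hr0 hr1
  rw [ContinuousLinearMap.le_def] at h1
  have h2 : 0 ≤ (inner ℂ x ((cfc f' (Rop π) - cfc f (Rop π)) x) : ℂ).re :=
    h1.re_inner_nonneg_right x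
  rw [_root_.sub_apply, inner_sub_right, Complex.sub_re] at h2
  linarith

end

end Pool.Agent.Helper406.HK
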