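import Pool.Agent.Helper406.HK.Kern

set_option autoImplicit false
set_option linter.unusedSectionVars false

open MeasureTheory Set Filter Topology InnerProductSpace
open scoped ContDiff ComplexConjugate

namespace Pool.Agent.Helper406.HK

noncomputable section

/-- `M(ε)` for the operator with coefficient `c` at the point 0. -/
def MM (c : Coef) (ε : ℝ) : ℝ := Mf (pr c) (gv c 0) ε

theorem Een_cont (c : Coef) (ε : ℝ) : Continuous (fun k : KS c => Een (pr c) ε k) := by
  unfold Een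
  exact (continuous_norm.pow 2).sub (continuous_const.mul ((pr c).continuous.norm.pow 2))

theorem MM_nonneg (c : Coef) {ε : ℝ} (h0 : 0 < ε) (h1 : ε ≤ 1) : 0 ≤ MM c ε :=
  Mf_nonneg (pr_norm c) h0 h1 _

theorem MM_le_of (c : Coef) {ε C : ℝ} (h0 : 0 < ε) (h1 : ε ≤ 1) (hC : 0 ≤ C)
    (h : ∀ u : Test, ‖(u : ℝ → ℂ) 0‖ ^ 2 ≤
      C * (ε * (∫ x, ‖(u : ℝ → ℂ) x‖ ^ 2) + energy c u)) : MM c ε ≤ C := by
  apply Mf_le (pr_norm c) h0 h1 _ hC
  apply dense_ineq c (p := fun k => ‖(inner ℂ (gv c 0) k : ℂ)‖ ^ 2 ≤ C * Een (pr c) ε k)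
  · exact isClosed_le ((innerSL ℂ (gv c 0)).continuous.norm.pow 2)
      (continuous_const.mul (Een_cont c ε))
  · intro u
    rw [inner_gv_emb, Een_emb]
    exact h u

theorem le_MM_of (c : Coef) {ε : ℝ} (h0 : 0 < ε) (h1 : ε ≤ 1) (u : Test)
    (hu : (u : ℝ → ℂ) 0 = 1) :
    1 / (ε * (∫ x, ‖(u : ℝ → ℂ) x‖ ^ 2) + energy c u) ≤ MM c ε := by
  have h2 := le_Mf (pr_norm c) h0 h1 (gv c 0) (emb c u) (by rw [inner_gv_emb, hu])
  rw [Een_emb] at h2
  exact h2

theorem MM_upper (c : Coef) (hodd : ∀ x, c.S (-x) = - c.S x) {η Y : ℝ} (h0 : 0 < η)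
    (h1 : η ≤ 1) (hY : 0 < Y) : MM c η ≤ (1 / 2) * (c.S Y + 1 / (η * Y)) := by
  have hS0 : c.S 0 = 0 := by
    have := hodd 0
    simp at this
    linarith
  have hSY : 0 < c.S Y := by rw [← hS0]; exact c.S_strictMono hY
  apply MM_le_of c h0 h1 (by positivity)
  intro u
  have w1 := window c (tcd u) (p := 0) (q := Y) (x := 0) hY ⟨le_refl _, hY.le⟩ h0
  have w2 := window c (tcd u) (p := -Y) (q := 0) (x := 0) (by linarith) ⟨by linarith, le_refl _⟩ h0
  rw [hS0, hodd, show (0 : ℝ) - -Y = Y by ring, show (0 : ℝ) - - c.S Y = c.S Y by ring] at w2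
  rw [hS0, show Y - 0 = Y by ring, show c.S Y - 0 = c.S Y by ring] at w1
  have hcu : Continuous (fun y => ‖(u : ℝ → ℂ) y‖ ^ 2) := (tcd u).continuous.norm.pow 2
  have hce : Continuous (fun z => c.a z * ‖deriv (u : ℝ → ℂ) z‖ ^ 2) :=
    c.a_cont.mul ((norm_deriv_cont (tcd u)).pow 2)
  have e1 : (∫ z in (-Y)..0, ‖(u : ℝ → ℂ) z‖ ^ 2) + (∫ z in (0:ℝ)..Y, ‖(u : ℝ → ℂ) z‖ ^ 2)
      ≤ ∫ z, ‖(u : ℝ → ℂ) z‖ ^ 2 := by
    rw [intervalIntegral.integral_add_adjacent_intervals (hcu.intervalIntegrable _ _)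
      (hcu.intervalIntegrable _ _)]
    exact interval_le_integral (tint_sq u) (fun _ => sq_nonneg _) (by linarith)
  have e2 : (∫ z in (-Y)..0, c.a z * ‖deriv (u : ℝ → ℂ) z‖ ^ 2)
      + (∫ z in (0:ℝ)..Y, c.a z * ‖deriv (u : ℝ → ℂ) z‖ ^ 2) ≤ energy c u := by
    rw [intervalIntegral.integral_add_adjacent_intervals (hce.intervalIntegrable _ _)
      (hce.intervalIntegrable _ _)]
    exact interval_le_integral (tint_en c u)
      (fun z => mul_nonneg (c.a_pos z).le (sq_nonneg _)) (by linarith)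
  set C := 1 / (η * Y) + c.S Y with hC
  have hC0 : 0 < C := by positivity
  have e3 : 2 * ‖(u : ℝ → ℂ) 0‖ ^ 2 ≤ C * (η * (∫ z, ‖(u : ℝ → ℂ) z‖ ^ 2) + energy c u) := by
    calc 2 * ‖(u : ℝ → ℂ) 0‖ ^ 2 = ‖(u : ℝ → ℂ) 0‖ ^ 2 + ‖(u : ℝ → ℂ) 0‖ ^ 2 := by ring
      _ ≤ C * (η * (∫ z in (0:ℝ)..Y, ‖(u : ℝ → ℂ) z‖ ^ 2)
            + ∫ z in (0:ℝ)..Y, c.a z * ‖deriv (u : ℝ → ℂ) z‖ ^ 2)
          + C * (η * (∫ z in (-Y)..0, ‖(u : ℝ → ℂ) z‖ ^ 2)
            + ∫ z in (-Y)..0, c.a z * ‖deriv (u : ℝ → ℂ) z‖ ^ 2) := add_le_add w1 w2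
      _ = C * (η * ((∫ z in (-Y)..0, ‖(u : ℝ → ℂ) z‖ ^ 2) + ∫ z in (0:ℝ)..Y, ‖(u : ℝ → ℂ) z‖ ^ 2)
            + ((∫ z in (-Y)..0, c.a z * ‖deriv (u : ℝ → ℂ) z‖ ^ 2)
            + ∫ z in (0:ℝ)..Y, c.a z * ‖deriv (u : ℝ → ℂ) z‖ ^ 2)) := by ring
      _ ≤ _ := by gcongr
  have e4 : (1 / 2) * (c.S Y + 1 / (η * Y)) = C / 2 := by rw [hC]; ring
  rw [e4]
  linarith

/-! ### test functions -/

/-- cut-off: vanishes outside `(X,Y)`, equals one on `[X+δ, Y-δ]`. -/
def chi (X Y δ y : ℝ) : ℝ :=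
  Real.smoothTransition ((y - X) / δ) * Real.smoothTransition ((Y - y) / δ)

theorem chi_smooth (X Y δ : ℝ) : ContDiff ℝ ∞ (chi X Y δ) := by
  unfold chi
  apply ContDiff.mul
  · exact Real.smoothTransition.contDiff.comp ((contDiff_id.sub contDiff_const).div_const δ)
  · exact Real.smoothTransition.contDiff.comp ((contDiff_const.sub contDiff_id).div_const δ)

theorem chi_nonneg (X Y δ y : ℝ) : 0 ≤ chi X Y δ y :=
  mul_nonneg (Real.smoothTransition.nonneg _) (Real.smoothTransition.nonneg _)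

theorem chi_le_one (X Y δ y : ℝ) : chi X Y δ y ≤ 1 :=
  mul_le_one₀ (Real.smoothTransition.le_one _) (Real.smoothTransition.nonneg _)
    (Real.smoothTransition.le_one _)

theorem chi_zero_left {X Y δ y : ℝ} (hδ : 0 < δ) (h : y ≤ X) : chi X Y δ y = 0 := by
  unfold chi
  rw [Real.smoothTransition.zero_of_nonpos
    (div_nonpos_of_nonpos_of_nonneg (by linarith) hδ.le), zero_mul]

theorem chi_zero_right {X Y δ y : ℝ} (hδ : 0 < δ) (h : Y ≤ y) : chi X Y δ y = 0 := by
  unfold chi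
  rw [Real.smoothTransition.zero_of_nonpos (x := (Y - y) / δ)
    (div_nonpos_of_nonpos_of_nonneg (by linarith) hδ.le), mul_zero]

theorem chi_one {X Y δ y : ℝ} (hδ : 0 < δ) (h1 : X + δ ≤ y) (h2 : y ≤ Y - δ) :
    chi X Y δ y = 1 := by
  unfold chi
  rw [Real.smoothTransition.one_of_one_le (by rw [le_div_iff₀ hδ]; linarith),
    Real.smoothTransition.one_of_one_le (by rw [le_div_iff₀ hδ]; linarith), mul_one]

/-- existence of good test functions -/
theorem exists_test (c : Coef) (hodd : ∀ x, c.S (-x) = - c.S x) {X Y s : ℝ} (hX : 0 ≤ X)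
    (hXY : X < Y) (hs0 : 0 < s) (hs : s < c.S Y - c.S X) :
    ∃ u : Test, (∀ x, |x| ≤ X → (u : ℝ → ℂ) x = 1) ∧ (∀ x, ‖(u : ℝ → ℂ) x‖ ≤ 1) ∧
      (∀ x, Y ≤ |x| → (u : ℝ → ℂ) x = 0) ∧ energy c u ≤ 2 / s := by
  -- choose δ
  obtain ⟨δ, hδ, hδ2, hδs⟩ : ∃ δ : ℝ, 0 < δ ∧ X + δ ≤ Y - δ ∧
      s < c.S (Y - δ) - c.S (X + δ) := by
    have hcont : Continuous (fun δ => c.S (Y - δ) - c.S (X + δ)) :=
      (c.smooth.continuous.comp (continuous_const.sub continuous_id)).sub
        (c.smooth.continuous.comp (continuous_const.add continuous_id))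
    have h1 : Tendsto (fun δ => c.S (Y - δ) - c.S (X + δ)) (𝓝[>] 0) (𝓝 (c.S Y - c.S X)) := by
      have := hcont.tendsto 0
      simp only [sub_zero, add_zero] at this
      exact this.mono_left nhdsWithin_le_nhds
    have h2 := h1.eventually (lt_mem_nhds hs)
    have h3 : ∀ᶠ δ : ℝ in 𝓝[>] 0, δ ≤ (Y - X) / 2 := by
      have : ∀ᶠ δ : ℝ in 𝓝 0, δ < (Y - X) / 2 := gt_mem_nhds (by linarith)
      exact (this.filter_mono nhdsWithin_le_nhds).mono (fun _ h => h.le)
    have h4 : ∀ᶠ δ : ℝ in 𝓝[>] 0, 0 < δ := eventually_nhdsWithin_of_forall (fun _ h => h)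
    obtain ⟨δ, h5, h6, h7⟩ := (h2.and (h3.and h4)).exists
    exact ⟨δ, h7, by linarith, h5⟩
  set w : ℝ → ℝ := fun y => chi X Y δ y * c.sg y with hw
  have hwsm : ContDiff ℝ ∞ w := (chi_smooth X Y δ).mul c.sg_smooth
  have hwc : Continuous w := hwsm.continuous
  have hw0 : ∀ y, 0 ≤ w y := fun y => mul_nonneg (chi_nonneg _ _ _ _) (c.sg_pos y).le
  have hwl : ∀ y, y ≤ X → w y = 0 := fun y hy => by rw [hw]; simp [chi_zero_left hδ hy]
  have hwr : ∀ y, Y ≤ y → w y = 0 := fun y hy => by rw [hw]; simp [chi_zero_right hδ hy]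
  have hsupp : ∀ y, w y ≠ 0 → X < y ∧ y < Y := by
    intro y hy
    constructor
    · by_contra h; exact hy (hwl y (not_lt.mp h))
    · by_contra h; exact hy (hwr y (not_lt.mp h))
  have hwcs : HasCompactSupport w := by
    apply HasCompactSupport.of_support_subset_isCompact (isCompact_Icc (a := X) (b := Y))
    intro y hy
    have := hsupp y hy
    exact ⟨this.1.le, this.2.le⟩
  have hwint : Integrable w := hwc.integrable_of_hasCompactSupport hwcs
  set I := ∫ y, w y with hI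
  have hIs : s < I := by
    refine lt_of_lt_of_le hδs ?_
    have h1 : ∫ y in (X + δ)..(Y - δ), w y = c.S (Y - δ) - c.S (X + δ) := by
      rw [← c.integral_sg]
      apply intervalIntegral.integral_congr
      intro y hy
      rw [uIcc_of_le hδ2] at hy
      simp only [hw]
      rw [chi_one hδ hy.1 hy.2, one_mul]
    rw [← h1]
    exact interval_le_integral hwint hw0 hδ2
  have hI0 : 0 < I := by linarith
  set W : ℝ → ℝ := fun x => ∫ y in (0:ℝ)..x, w y with hW
  have hWd : ∀ x, HasDerivAt W (w x) x := fun x =>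
    (hwc.integral_hasStrictDerivAt 0 x).hasDerivAt
  have hWsm : ContDiff ℝ ∞ W := by
    rw [contDiff_infty_iff_deriv]
    refine ⟨fun x => (hWd x).differentiableAt, ?_⟩
    have : deriv W = w := by funext x; exact (hWd x).deriv
    rw [this]; exact hwsm
  have hWl : ∀ x, x ≤ X → W x = 0 := by
    intro x hx
    simp only [hW]
    have h1 : ∫ y in (0:ℝ)..x, w y = ∫ y in (0:ℝ)..x, (0 : ℝ) := by
      apply intervalIntegral.integral_congr
      intro y hy
      apply hwl
      rw [mem_uIcc] at hy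
      rcases hy with hy | hy <;> linarith
    rw [h1]
    simp
  have hWr : ∀ x, Y ≤ x → W x = I := by
    intro x hx
    simp only [hW, hI]
    apply intervalIntegral.integral_eq_integral_of_support_subset
    intro y hy
    have := hsupp y hy
    exact ⟨by linarith, by linarith⟩
  have hWb : ∀ x, 0 ≤ W x ∧ W x ≤ I := by
    intro x
    rcases le_total x 0 with hx | hx
    · rw [hWl x (by linarith)]; exact ⟨le_refl _, hI0.le⟩
    · constructor
      · exact intervalIntegral.integral_nonneg hx (fun y _ => hw0 y)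
      · exact interval_le_integral hwint hw0 hx
  set v : ℝ → ℝ := fun x => 1 - (W x + W (-x)) / I with hv
  have hvsm : ContDiff ℝ ∞ v :=
    contDiff_const.sub ((hWsm.add (hWsm.comp contDiff_neg)).div_const I)
  have hvb : ∀ x, 0 ≤ v x ∧ v x ≤ 1 := by
    intro x
    have h1 : 0 ≤ W x + W (-x) ∧ W x + W (-x) ≤ I := by
      rcases le_total x 0 with hx | hx
      · rw [hWl x (by linarith), zero_add]; exact hWb (-x)
      · rw [hWl (-x) (by linarith), add_zero]; exact hWb x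
    simp only [hv]
    constructor
    · rw [sub_nonneg, div_le_one hI0]; exact h1.2
    · have := div_nonneg h1.1 hI0.le
      linarith
  have hv1 : ∀ x, |x| ≤ X → v x = 1 := by
    intro x hx
    rw [abs_le] at hx
    simp only [hv]
    rw [hWl x hx.2, hWl (-x) (by linarith)]
    simp
  have hv0 : ∀ x, Y ≤ |x| → v x = 0 := by
    intro x hx
    simp only [hv]
    rcases le_total x 0 with h | h
    · rw [abs_of_nonpos h] at hx
      rw [hWl x (by linarith), hWr (-x) hx, zero_add, div_self hI0.ne', sub_self]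
    · rw [abs_of_nonneg h] at hx
      rw [hWl (-x) (by linarith), hWr x hx, add_zero, div_self hI0.ne', sub_self]
  have hvcs : HasCompactSupport v := by
    apply HasCompactSupport.of_support_subset_isCompact (isCompact_Icc (a := -Y) (b := Y))
    intro y hy
    by_contra h
    apply hy
    apply hv0
    by_contra h2
    push Not at h2
    rw [abs_lt] at h2
    exact h ⟨h2.1.le, h2.2.le⟩
  have hvd : ∀ x, HasDerivAt v (-((w x - w (-x)) / I)) x := by
    intro x
    have h1 : HasDerivAt (fun x => W (-x)) (w (-x) * (-1)) x :=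
      (hWd (-x)).comp x (hasDerivAt_neg x)
    have h2 := (((hWd x).add h1).div_const I).const_sub 1
    exact h2.congr_deriv (by ring)
  have hUsm : ContDiff ℝ ∞ (fun x => ((v x : ℝ) : ℂ)) := Complex.ofRealCLM.contDiff.comp hvsm
  have hUcs : HasCompactSupport (fun x => ((v x : ℝ) : ℂ)) :=
    hvcs.comp_left (g := fun z : ℝ => (z : ℂ)) Complex.ofReal_zero
  refine ⟨⟨fun x => ((v x : ℝ) : ℂ), hUsm, hUcs⟩, ?_, ?_, ?_, ?_⟩
  · intro x hx
    show ((v x : ℝ) : ℂ) = 1
    rw [hv1 x hx]; simp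
  · intro x
    show ‖((v x : ℝ) : ℂ)‖ ≤ 1
    rw [Complex.norm_real, Real.norm_eq_abs, abs_of_nonneg (hvb x).1]
    exact (hvb x).2
  · intro x hx
    show ((v x : ℝ) : ℂ) = 0
    rw [hv0 x hx]; simp
  · show energy c (fun x => ((v x : ℝ) : ℂ)) ≤ 2 / s
    unfold energy
    have hd : ∀ x, deriv (fun x => ((v x : ℝ) : ℂ)) x = ((-((w x - w (-x)) / I) : ℝ) : ℂ) :=
      fun x => ((hvd x).ofReal_comp).deriv
    have haev : ∀ x, c.a (-x) = c.a x := by
      intro x
      have h1 : HasDerivAt (fun y => c.S (-y)) (c.sg (-x) * (-1)) x :=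
        (c.hasDerivAt_S (-x)).comp x (hasDerivAt_neg x)
      have h2 : (fun y => c.S (-y)) = fun y => - c.S y := by funext y; exact hodd y
      rw [h2] at h1
      have h3 := h1.unique (c.hasDerivAt_S x).neg
      have h4 : c.sg (-x) = c.sg x := by linarith
      show (c.sg (-x))⁻¹ = (c.sg x)⁻¹
      rw [h4]
    have e1 : ∀ x, c.a x * ‖deriv (fun x => ((v x : ℝ) : ℂ)) x‖ ^ 2
        = (c.a x * w x ^ 2 + c.a (-x) * w (-x) ^ 2) / I ^ 2 := by
      intro x
      rw [hd, Complex.norm_real, Real.norm_eq_abs, sq_abs, haev]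
      have h1 : w x * w (-x) = 0 := by
        by_cases h : w x = 0
        · rw [h, zero_mul]
        · have := (hsupp x h).1
          rw [hwl (-x) (by linarith), mul_zero]
      field_simp
      linear_combination (-2) * c.a x * h1
    simp_rw [e1]
    have hle : ∀ x, c.a x * w x ^ 2 ≤ w x := by
      intro x
      have h1 : c.a x * w x ^ 2 = chi X Y δ x * w x := by
        simp only [hw]
        have := c.a_mul_sg x
        linear_combination (chi X Y δ x) ^ 2 * c.sg x * this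
      rw [h1]
      calc chi X Y δ x * w x ≤ 1 * w x := by
            apply mul_le_mul_of_nonneg_right (chi_le_one _ _ _ _) (hw0 x)
        _ = w x := one_mul _
    have i1 : Integrable (fun x => c.a x * w x ^ 2) := by
      apply Continuous.integrable_of_hasCompactSupport (c.a_cont.mul (hwc.pow 2))
      have : HasCompactSupport (fun x => w x * w x) := hwcs.mul_left
      have h2 : (fun x => w x ^ 2) = (fun x => w x * w x) := by funext x; ring
      have h3 : HasCompactSupport (fun x => w x ^ 2) := by rw [h2]; exact this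
      exact h3.mul_left
    have i2 : Integrable (fun x => c.a (-x) * w (-x) ^ 2) := i1.comp_neg
    rw [integral_div, integral_add i1 i2,
      integral_neg_eq_self (fun x => c.a x * w x ^ 2) volume]
    have e2 : ∫ x, c.a x * w x ^ 2 ≤ I := integral_mono i1 hwint hle
    rw [div_le_div_iff₀ (by positivity) hs0]
    nlinarith

end

end Pool.Agent.Helper406.HK
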