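import Mathlib

set_option autoImplicit false

open MeasureTheory Set Filter Topology
open scoped ContDiff

namespace Pool.Agent.Helper406.HK

noncomputable section

/-- Scale function of the operator `-(a u')'`, with `a = 1 / S'`. -/
structure Coef where
  S : ℝ → ℝ
  smooth : ContDiff ℝ ∞ S
  pos : ∀ x, 0 < deriv S x

namespace Coef

variable (c : Coef)

def sg (x : ℝ) : ℝ := deriv c.S x

def a (x : ℝ) : ℝ := (deriv c.S x)⁻¹

theorem sg_smooth : ContDiff ℝ ∞ c.sg := by
  have h := c.smooth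
  rw [contDiff_infty_iff_deriv] at h
  exact h.2

theorem sg_cont : Continuous c.sg := c.sg_smooth.continuous

theorem sg_pos (x : ℝ) : 0 < c.sg x := c.pos x

theorem a_smooth : ContDiff ℝ ∞ c.a := c.sg_smooth.inv (fun x => (c.pos x).ne')

theorem a_cont : Continuous c.a := c.a_smooth.continuous

theorem a_pos (x : ℝ) : 0 < c.a x := inv_pos.mpr (c.pos x)

theorem a_mul_sg (x : ℝ) : c.a x * c.sg x = 1 := inv_mul_cancel₀ (c.pos x).ne'

theorem hasDerivAt_S (x : ℝ) : HasDerivAt c.S (c.sg x) x :=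
  ((c.smooth.differentiable (by simp)) x).hasDerivAt

theorem integral_sg (p q : ℝ) : ∫ x in p..q, c.sg x = c.S q - c.S p :=
  intervalIntegral.integral_eq_sub_of_hasDerivAt (fun x _ => c.hasDerivAt_S x)
    (c.sg_cont.intervalIntegrable _ _)

theorem S_strictMono : StrictMono c.S := strictMono_of_deriv_pos c.pos

end Coef

/-- Cauchy-Schwarz with weights. -/
theorem cs_weight (c : Coef) {w : ℝ → ℝ} (hw : Continuous w) {p q : ℝ} (hpq : p < q) :
    (∫ x in p..q, w x) ^ 2 ≤ (c.S q - c.S p) * ∫ x in p..q, c.a x * w x ^ 2 := by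
  have hS : 0 < c.S q - c.S p := sub_pos.mpr (c.S_strictMono hpq)
  set D := c.S q - c.S p with hD
  set I := ∫ x in p..q, w x with hI
  set J := ∫ x in p..q, c.a x * w x ^ 2 with hJ
  set s := I / D with hs
  have h1 : 0 ≤ ∫ x in p..q, c.sg x * (s - c.a x * w x) ^ 2 := by
    apply intervalIntegral.integral_nonneg hpq.le
    intro x _
    exact mul_nonneg (c.sg_pos x).le (sq_nonneg _)
  have h2 : ∫ x in p..q, c.sg x * (s - c.a x * w x) ^ 2 = s ^ 2 * D - 2 * s * I + J := by
    have e1 : ∀ x, c.sg x * (s - c.a x * w x) ^ 2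
        = s ^ 2 * c.sg x - 2 * s * w x + c.a x * w x ^ 2 := by
      intro x
      have := c.a_mul_sg x
      have h3 : c.sg x * (s - c.a x * w x) ^ 2 = s ^ 2 * c.sg x - 2 * s * (c.a x * c.sg x) * w x
        + (c.a x * c.sg x) * c.a x * w x ^ 2 := by ring
      rw [h3, this]; ring
    simp_rw [e1]
    have i1 : IntervalIntegrable (fun x => s ^ 2 * c.sg x) volume p q :=
      (continuous_const.mul c.sg_cont).intervalIntegrable _ _
    have i2 : IntervalIntegrable (fun x => 2 * s * w x) volume p q :=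
      (continuous_const.mul hw).intervalIntegrable _ _
    have i3 : IntervalIntegrable (fun x => c.a x * w x ^ 2) volume p q :=
      (c.a_cont.mul (hw.pow 2)).intervalIntegrable _ _
    rw [intervalIntegral.integral_add (i1.sub i2) i3, intervalIntegral.integral_sub i1 i2,
      intervalIntegral.integral_const_mul, intervalIntegral.integral_const_mul, c.integral_sg]
  rw [h2] at h1
  have h3 : s ^ 2 * D - 2 * s * I + J = J - I ^ 2 / D := by
    rw [hs]; field_simp; ring
  rw [h3] at h1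
  have h4 : I ^ 2 / D ≤ J := by linarith
  rw [div_le_iff₀ hS] at h4
  linarith

variable {u : ℝ → ℂ}

theorem norm_deriv_cont (hu : ContDiff ℝ ∞ u) : Continuous (fun x => ‖deriv u x‖) := by
  have h := hu
  rw [contDiff_infty_iff_deriv] at h
  exact h.2.continuous.norm

theorem deriv_smooth (hu : ContDiff ℝ ∞ u) : ContDiff ℝ ∞ (deriv u) := by
  have h := hu
  rw [contDiff_infty_iff_deriv] at h
  exact h.2

theorem norm_sub_le_int (hu : ContDiff ℝ ∞ u) {p q x y : ℝ} (hx : x ∈ Icc p q)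
    (hy : y ∈ Icc p q) : ‖u x - u y‖ ≤ ∫ z in p..q, ‖deriv u z‖ := by
  have hd : ∀ z, HasDerivAt u (deriv u z) z := fun z =>
    ((hu.differentiable (by simp)) z).hasDerivAt
  have h1 : ∀ {x y : ℝ}, x ∈ Icc p q → y ∈ Icc p q → x ≤ y →
      ‖u y - u x‖ ≤ ∫ z in p..q, ‖deriv u z‖ := by
    intro x y hx hy hxy
    rw [← intervalIntegral.integral_eq_sub_of_hasDerivAt (fun z _ => hd z)
      ((deriv_smooth hu).continuous.intervalIntegrable _ _)]
    calc ‖∫ z in x..y, deriv u z‖ ≤ ∫ z in x..y, ‖deriv u z‖ :=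
          intervalIntegral.norm_integral_le_integral_norm hxy
      _ ≤ ∫ z in p..q, ‖deriv u z‖ := by
          apply intervalIntegral.integral_mono_interval hx.1 hxy hy.2
          · exact Filter.Eventually.of_forall (fun z => norm_nonneg _)
          · exact (norm_deriv_cont hu).intervalIntegrable _ _
  rcases le_total x y with h | h
  · rw [norm_sub_rev]; exact h1 hx hy h
  · exact h1 hy hx h

theorem norm_sub_sq_le (c : Coef) (hu : ContDiff ℝ ∞ u) {p q x y : ℝ} (hpq : p < q)
    (hx : x ∈ Icc p q) (hy : y ∈ Icc p q) :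
    ‖u x - u y‖ ^ 2 ≤ (c.S q - c.S p) * ∫ z in p..q, c.a z * ‖deriv u z‖ ^ 2 := by
  have h1 := norm_sub_le_int hu hx hy
  calc ‖u x - u y‖ ^ 2 ≤ (∫ z in p..q, ‖deriv u z‖) ^ 2 := by gcongr
    _ ≤ _ := cs_weight c (norm_deriv_cont hu) hpq

/-- the window inequality -/
theorem window (c : Coef) (hu : ContDiff ℝ ∞ u) {p q x η : ℝ} (hpq : p < q)
    (hx : x ∈ Icc p q) (hη : 0 < η) :
    ‖u x‖ ^ 2 ≤ (1 / (η * (q - p)) + (c.S q - c.S p)) *
      (η * (∫ z in p..q, ‖u z‖ ^ 2) + ∫ z in p..q, c.a z * ‖deriv u z‖ ^ 2) := by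
  have hL : 0 < q - p := by linarith
  have hS : 0 < c.S q - c.S p := sub_pos.mpr (c.S_strictMono hpq)
  set D := c.S q - c.S p with hD
  set E := ∫ z in p..q, c.a z * ‖deriv u z‖ ^ 2 with hE
  have hE0 : 0 ≤ E := by
    apply intervalIntegral.integral_nonneg hpq.le
    intro z _
    exact mul_nonneg (c.a_pos z).le (sq_nonneg _)
  have hm : 0 < η * (q - p) := by positivity
  have h1 : ∀ y ∈ Icc p q, ‖u x‖ ^ 2 ≤
      (1 / (η * (q - p)) + D) * (η * (q - p) * ‖u y‖ ^ 2 + E) := by
    intro y hy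
    have h2 := norm_sub_sq_le c hu hpq hx hy
    rw [← hD, ← hE] at h2
    have h3 : ‖u x‖ ≤ ‖u y‖ + ‖u x - u y‖ := by
      calc ‖u x‖ = ‖u y + (u x - u y)‖ := by congr 1; ring
        _ ≤ _ := norm_add_le _ _
    set A := ‖u y‖
    set B := ‖u x - u y‖
    have hA : 0 ≤ A := norm_nonneg _
    have hB : 0 ≤ B := norm_nonneg _
    set m := η * (q - p) with hmdef
    have h4 : ‖u x‖ ^ 2 ≤ (A + B) ^ 2 := by gcongr
    have h5 : (A + B) ^ 2 ≤ (1 / m + D) * (m * A ^ 2 + B ^ 2 / D) := by
      have e1 : (1 / m + D) * (m * A ^ 2 + B ^ 2 / D) - (A + B) ^ 2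
          = (m * D * A - B) ^ 2 / (m * D) := by
        field_simp; ring
      have e2 : 0 ≤ (m * D * A - B) ^ 2 / (m * D) := by positivity
      linarith
    have h6 : B ^ 2 / D ≤ E := by rw [div_le_iff₀ hS]; linarith
    calc ‖u x‖ ^ 2 ≤ (A + B) ^ 2 := h4
      _ ≤ (1 / m + D) * (m * A ^ 2 + B ^ 2 / D) := h5
      _ ≤ (1 / m + D) * (m * A ^ 2 + E) := by gcongr
  have hcu : Continuous (fun y => ‖u y‖ ^ 2) := hu.continuous.norm.pow 2
  have h7 : ∫ y in p..q, ‖u x‖ ^ 2 ≤ ∫ y in p..q,
      (1 / (η * (q - p)) + D) * (η * (q - p) * ‖u y‖ ^ 2 + E) := by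
    apply intervalIntegral.integral_mono_on hpq.le
    · exact continuous_const.intervalIntegrable _ _
    · exact (continuous_const.mul ((continuous_const.mul hcu).add
        continuous_const)).intervalIntegrable _ _
    · intro y hy; exact h1 y hy
  have i1 : IntervalIntegrable (fun y => η * (q - p) * ‖u y‖ ^ 2) volume p q :=
    (continuous_const.mul hcu).intervalIntegrable _ _
  rw [intervalIntegral.integral_const, intervalIntegral.integral_const_mul,
    intervalIntegral.integral_add i1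
      (continuous_const.intervalIntegrable _ _), intervalIntegral.integral_const_mul,
    intervalIntegral.integral_const, smul_eq_mul, smul_eq_mul] at h7
  have h8 : (1 / (η * (q - p)) + D) * (η * (q - p) * (∫ z in p..q, ‖u z‖ ^ 2) + (q - p) * E)
      = (q - p) * ((1 / (η * (q - p)) + D) * (η * (∫ z in p..q, ‖u z‖ ^ 2) + E)) := by ring
  rw [h8] at h7
  exact le_of_mul_le_mul_left h7 hL

end

end Pool.Agent.Helper406.HK
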