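import Pool.Agent.Helper406.HK.Abs

set_option autoImplicit false
set_option linter.unusedSectionVars false

open ContinuousLinearMap InnerProductSpace

namespace Pool.Agent.Helper406.HK

noncomputable section

/-- `exp(-t λ)` as a function of `r = 1/(1+λ)`. -/
def hfun (t r : ℝ) : ℝ := if 0 < r then Real.exp (-(t * (1 / r - 1))) else 0

/-- `exp(-t λ) (1+λ)^2` as a function of `r = 1/(1+λ)`. -/
def bfun (t r : ℝ) : ℝ := if 0 < r then (r⁻¹) ^ 2 * Real.exp (-(t * (1 / r - 1))) else 0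

theorem hfun_eq (t r : ℝ) : hfun t r = r * bfun t r * r := by
  unfold hfun bfun
  split_ifs with h
  · field_simp
  · ring

theorem bfun_eq {t : ℝ} (ht : 0 < t) (r : ℝ) :
    bfun t r = Real.exp t * (1 / t ^ 2) *
      ((Polynomial.X ^ 2 : Polynomial ℝ).eval (r / t)⁻¹ * expNegInvGlue (r / t)) := by
  unfold bfun expNegInvGlue
  by_cases h : 0 < r
  · have h1 : ¬ (r / t ≤ 0) := by push Not; positivity
    rw [if_pos h, if_neg h1]
    simp only [Polynomial.eval_pow, Polynomial.eval_X]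
    have h2 : -(t * (1 / r - 1)) = t + -(r / t)⁻¹ := by
      field_simp; ring
    rw [h2, Real.exp_add]
    field_simp
  · have h1 : r / t ≤ 0 := by
      push Not at h
      exact div_nonpos_of_nonpos_of_nonneg h ht.le
    rw [if_neg h, if_pos h1]
    ring

theorem bfun_cont {t : ℝ} (ht : 0 < t) : Continuous (bfun t) := by
  have h : bfun t = fun r => Real.exp t * (1 / t ^ 2) *
      ((Polynomial.X ^ 2 : Polynomial ℝ).eval (r / t)⁻¹ * expNegInvGlue (r / t)) := by
    funext r; exact bfun_eq ht r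
  rw [h]
  apply Continuous.mul continuous_const
  have h2 := expNegInvGlue.continuous_polynomial_eval_inv_mul (Polynomial.X ^ 2 : Polynomial ℝ)
  exact h2.comp (continuous_id.div_const t)

theorem hfun_cont {t : ℝ} (ht : 0 < t) : Continuous (hfun t) := by
  have h : hfun t = fun r => r * bfun t r * r := by funext r; exact hfun_eq t r
  rw [h]
  exact (continuous_id.mul (bfun_cont ht)).mul continuous_id

theorem bfun_nonneg (t r : ℝ) : 0 ≤ bfun t r := by
  unfold bfun
  split_ifs <;> positivity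

theorem dfun_eq {ε ε' r : ℝ} (hr : 0 < r) :
    dfun ε ε' r = (r⁻¹) ^ 2 * ((ε' - ε) / (((1 / r - 1) + ε) * ((1 / r - 1) + ε'))) := by
  unfold dfun
  have h1 : ∀ e : ℝ, 1 - (1 - e) * r = r * ((1 / r - 1) + e) := by
    intro e; field_simp; ring
  rw [h1, h1]
  rw [show r * (1 / r - 1 + ε) * (r * (1 / r - 1 + ε'))
    = r ^ 2 * ((1 / r - 1 + ε) * (1 / r - 1 + ε')) by ring, inv_pow, div_mul_eq_div_div,
    div_eq_mul_inv (ε' - ε), mul_comm (ε' - ε), mul_div_assoc]

theorem bfun_le {t : ℝ} (ht : 0 < t) {r : ℝ} (hr0 : 0 ≤ r) (hr1 : r ≤ 1) :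
    bfun t r ≤ 3 / t * dfun (1 / t) (2 / t) r := by
  rcases hr0.eq_or_lt with h | h
  · rw [← h]
    unfold bfun dfun
    simp only [lt_irrefl, if_false, mul_zero, sub_zero, mul_one, div_one]
    have : (0 : ℝ) ≤ 2 / t - 1 / t := by rw [← sub_div]; positivity
    positivity
  · rw [dfun_eq h]
    unfold bfun
    rw [if_pos h]
    set l := 1 / r - 1 with hl
    have hl0 : 0 ≤ l := by
      rw [hl, sub_nonneg, le_div_iff₀ h]; linarith
    rw [show 3 / t * (r⁻¹ ^ 2 * ((2 / t - 1 / t) / ((l + 1 / t) * (l + 2 / t))))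
      = r⁻¹ ^ 2 * (3 / t * ((2 / t - 1 / t) / ((l + 1 / t) * (l + 2 / t)))) by ring]
    apply mul_le_mul_of_nonneg_left _ (by positivity)
    have e1 : 3 / t * ((2 / t - 1 / t) / ((l + 1 / t) * (l + 2 / t)))
        = 3 / ((t * l + 1) * (t * l + 2)) := by
      field_simp
      ring
    rw [e1, Real.exp_neg, ← one_div, div_le_div_iff₀ (Real.exp_pos _) (by positivity)]
    have h2 := Real.quadratic_le_exp_of_nonneg (x := t * l) (by positivity)
    nlinarith [mul_nonneg ht.le hl0, sq_nonneg (t * l)]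

theorem dfun_le {t ε ε' : ℝ} (ht : 0 < t) (h0 : 0 < ε) (hεε : ε ≤ ε') {r : ℝ} (hr0 : 0 ≤ r)
    (hr1 : r ≤ 1) :
    dfun ε ε' r ≤ Real.exp 1 / ε * bfun t r + 6 * ε' * t * dfun (1 / t) (2 / t) r := by
  have h0' : 0 < ε' := by linarith
  rcases hr0.eq_or_lt with h | h
  · rw [← h]
    unfold bfun dfun
    simp only [lt_irrefl, if_false, mul_zero, sub_zero, mul_one, div_one]
    have : 6 * ε' * t * (2 / t - 1 / t) = 6 * ε' := by field_simp; ring
    rw [this]
    linarith
  · rw [dfun_eq h, dfun_eq h]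
    unfold bfun
    rw [if_pos h]
    set l := 1 / r - 1 with hl
    have hl0 : 0 ≤ l := by
      rw [hl, sub_nonneg, le_div_iff₀ h]; linarith
    rw [show Real.exp 1 / ε * (r⁻¹ ^ 2 * Real.exp (-(t * l))) + 6 * ε' * t *
      (r⁻¹ ^ 2 * ((2 / t - 1 / t) / ((l + 1 / t) * (l + 2 / t))))
      = r⁻¹ ^ 2 * (Real.exp 1 / ε * Real.exp (-(t * l)) + 6 * ε' * t *
        ((2 / t - 1 / t) / ((l + 1 / t) * (l + 2 / t)))) by ring]
    apply mul_le_mul_of_nonneg_left _ (by positivity)
    have e1 : 6 * ε' * t * ((2 / t - 1 / t) / ((l + 1 / t) * (l + 2 / t)))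
        = 6 * ε' * t ^ 2 / ((t * l + 1) * (t * l + 2)) := by
      field_simp
      ring
    rw [e1]
    have e2 : 0 ≤ 6 * ε' * t ^ 2 / ((t * l + 1) * (t * l + 2)) := by positivity
    have e3 : 0 ≤ Real.exp 1 / ε * Real.exp (-(t * l)) := by positivity
    rcases le_or_gt (t * l) 1 with h2 | h2
    · have e4 : (ε' - ε) / ((l + ε) * (l + ε')) ≤ 1 / ε := by
        rw [div_le_div_iff₀ (by positivity) h0]
        nlinarith [mul_nonneg hl0 hl0, mul_nonneg hl0 h0.le, mul_nonneg hl0 h0'.le,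
          mul_pos h0 h0, mul_pos h0 h0']
      have e5 : 1 / ε ≤ Real.exp 1 / ε * Real.exp (-(t * l)) := by
        rw [div_mul_eq_mul_div, ← Real.exp_add]
        gcongr
        apply Real.one_le_exp
        linarith
      linarith
    · have hl1 : 0 < l := by
        by_contra hc
        push Not at hc
        have : l = 0 := le_antisymm hc hl0
        rw [this] at h2
        simp at h2
        linarith
      have e4 : (ε' - ε) / ((l + ε) * (l + ε')) ≤ ε' / l ^ 2 := by
        apply div_le_div₀ h0'.le (by linarith) (by positivity)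
        nlinarith [mul_nonneg hl0 h0.le, mul_nonneg hl0 h0'.le, mul_pos h0 h0']
      have e5 : ε' / l ^ 2 ≤ 6 * ε' * t ^ 2 / ((t * l + 1) * (t * l + 2)) := by
        rw [div_le_div_iff₀ (by positivity) (by positivity)]
        have : (t * l + 1) * (t * l + 2) ≤ 6 * (t * l) ^ 2 := by nlinarith
        calc ε' * ((t * l + 1) * (t * l + 2)) ≤ ε' * (6 * (t * l) ^ 2) := by gcongr
          _ = 6 * ε' * t ^ 2 * l ^ 2 := by ring
      linarith

variable {H K : Type*} [NormedAddCommGroup H] [InnerProductSpace ℂ H] [CompleteSpace H]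
  [NormedAddCommGroup K] [InnerProductSpace ℂ K] [CompleteSpace K]

/-- diagonal value of the kernel -/
def pdiag (π : K →L[ℂ] H) (g : K) (t : ℝ) : ℝ :=
  (inner ℂ (π g) (cfc (bfun t) (Rop π) (π g)) : ℂ).re

theorem pdiag_le {π : K →L[ℂ] H} (hπ : ‖π‖ ≤ 1) (g : K) {t : ℝ} (ht : 2 ≤ t) :
    pdiag π g t ≤ 3 / t * (Mf π g (1 / t) - Mf π g (2 / t)) := by
  have ht0 : 0 < t := by linarith
  have hsa := Rop_sa π
  have h1 := inner_cfc_mono hπ (f := bfun t) (f' := fun r => 3 / t * dfun (1 / t) (2 / t) r)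
    (bfun_cont ht0).continuousOn
    ((dfun_cont hπ (by positivity) (by positivity)).const_smul (3 / t))
    (fun r h0 h1 => bfun_le ht0 h0 h1) (π g)
  have h2 : cfc (fun r => 3 / t * dfun (1 / t) (2 / t) r) (Rop π)
      = (3 / t) • cfc (dfun (1 / t) (2 / t)) (Rop π) :=
    cfc_const_mul (3 / t) _ _ (dfun_cont hπ (by positivity) (by positivity))
  rw [h2] at h1
  have h3 : (inner ℂ (π g) (((3 / t) • cfc (dfun (1 / t) (2 / t)) (Rop π)) (π g)) : ℂ).re
      = 3 / t * (Mf π g (1 / t) - Mf π g (2 / t)) := by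
    rw [← Mf_sub hπ (by positivity) (by rw [div_le_one ht0]; linarith) (by positivity)
      (by rw [div_le_one ht0]; linarith)]
    rw [_root_.smul_apply, ← Complex.coe_smul, inner_smul_right, Complex.re_ofReal_mul]
  rw [h3] at h1
  exact h1

theorem le_pdiag {π : K →L[ℂ] H} (hπ : ‖π‖ ≤ 1) (g : K) {t ε ε' : ℝ} (ht : 2 ≤ t)
    (h0 : 0 < ε) (hεε : ε ≤ ε') (h1 : ε' ≤ 1) :
    Mf π g ε - Mf π g ε' ≤ Real.exp 1 / ε * pdiag π g t
      + 6 * ε' * t * (Mf π g (1 / t) - Mf π g (2 / t)) := by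
  have ht0 : 0 < t := by linarith
  have h0' : 0 < ε' := by linarith
  have hsa := Rop_sa π
  have c1 := dfun_cont hπ (ε := 1 / t) (ε' := 2 / t) (by positivity) (by positivity)
  have c2 := (bfun_cont ht0).continuousOn (s := spectrum ℝ (Rop π))
  have c3 : ContinuousOn (fun r => Real.exp 1 / ε * bfun t r) (spectrum ℝ (Rop π)) :=
    c2.const_smul (Real.exp 1 / ε)
  have c4 : ContinuousOn (fun r => 6 * ε' * t * dfun (1 / t) (2 / t) r) (spectrum ℝ (Rop π)) :=
    c1.const_smul (6 * ε' * t)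
  have h3 := inner_cfc_mono hπ (f := dfun ε ε')
    (f' := fun r => Real.exp 1 / ε * bfun t r + 6 * ε' * t * dfun (1 / t) (2 / t) r)
    (dfun_cont hπ h0 h0') (c3.add c4)
    (fun r h0 h1 => dfun_le ht0 (by assumption) hεε h0 h1) (π g)
  rw [cfc_add (Rop π) _ _ c3 c4, cfc_const_mul (Real.exp 1 / ε) _ _ c2,
    cfc_const_mul (6 * ε' * t) _ _ c1, Mf_sub hπ h0 (by linarith) h0' h1] at h3
  have h4 : (inner ℂ (π g) (((Real.exp 1 / ε) • cfc (bfun t) (Rop π)
      + (6 * ε' * t) • cfc (dfun (1 / t) (2 / t)) (Rop π)) (π g)) : ℂ).re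
      = Real.exp 1 / ε * pdiag π g t
        + 6 * ε' * t * (Mf π g (1 / t) - Mf π g (2 / t)) := by
    rw [← Mf_sub hπ (by positivity) (by rw [div_le_one ht0]; linarith) (by positivity)
      (by rw [div_le_one ht0]; linarith)]
    rw [_root_.add_apply, _root_.smul_apply, _root_.smul_apply, inner_add_right,
      ← Complex.coe_smul, ← Complex.coe_smul, inner_smul_right, inner_smul_right, Complex.add_re,
      Complex.re_ofReal_mul, Complex.re_ofReal_mul]
    rfl
  rw [h4] at h3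
  exact h3

/-- continuous functional calculus of a bounded self-adjoint operator on a Hilbert space -/
def fc (F : ℝ → ℝ) (R : H →L[ℂ] H) : H →L[ℂ] H := cfc F R

theorem fc_hfun {R : H →L[ℂ] H} (hsa : IsSelfAdjoint R) {t : ℝ} (ht : 0 < t) :
    fc (hfun t) R = R ∘L fc (bfun t) R ∘L R := by
  have h1 : hfun t = fun r => r * bfun t r * r := by funext r; exact hfun_eq t r
  unfold fc
  rw [h1, cfc_mul (fun r => r * bfun t r) (fun r => r) R
    ((continuous_id.mul (bfun_cont ht)).continuousOn) continuousOn_id,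
    cfc_mul (fun r => r) (bfun t) R continuousOn_id (bfun_cont ht).continuousOn,
    cfc_id' ℝ R]
  rfl

theorem inner_symm_of_sa {A : H →L[ℂ] H} (hA : IsSelfAdjoint A) (f g : H) :
    inner ℂ f (A g) = inner ℂ (A f) g := by
  have h2 := hA.adjoint_eq
  rw [← ContinuousLinearMap.adjoint_inner_left, h2]

theorem fc_symm (F : ℝ → ℝ) (R : H →L[ℂ] H) (f g : H) :
    inner ℂ f (fc F R g) = inner ℂ (fc F R f) g :=
  inner_symm_of_sa (cfc_predicate F R) f g

theorem pdiag_eq (π : K →L[ℂ] H) (g : K) (t : ℝ) :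
    pdiag π g t = (inner ℂ (π g) (fc (bfun t) (Rop π) (π g)) : ℂ).re := rfl

end

end Pool.Agent.Helper406.HK
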