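import Pool.Agent.Helper406.HK.CS
import Pool.Agent.Helper406.HK.Fun

set_option autoImplicit false
set_option linter.unusedSectionVars false

open MeasureTheory Set Filter Topology InnerProductSpace
open scoped ContDiff ComplexConjugate

namespace Pool.Agent.Helper406.HK

noncomputable section

abbrev L2 : Type := Lp ℂ 2 (volume : Measure ℝ)

/-- `C_c^∞(ℝ)`. -/
def Test : Submodule ℂ (ℝ → ℂ) where
  carrier := {u | ContDiff ℝ ∞ u ∧ HasCompactSupport u}
  add_mem' := fun hu hv => ⟨hu.1.add hv.1, hu.2.add hv.2⟩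
  zero_mem' := ⟨contDiff_const, HasCompactSupport.zero⟩
  smul_mem' := fun r u hu => ⟨contDiff_const.smul hu.1, hu.2.smul_left (f := fun _ => r)⟩

theorem tcd (u : Test) : ContDiff ℝ ∞ (u : ℝ → ℂ) := u.2.1

theorem tcs (u : Test) : HasCompactSupport (u : ℝ → ℂ) := u.2.2

theorem tdiff (u : Test) : Differentiable ℝ (u : ℝ → ℂ) := (tcd u).differentiable (by simp)

theorem tmemLp (u : Test) : MemLp (u : ℝ → ℂ) 2 volume :=
  (tcd u).continuous.memLp_of_hasCompactSupport (tcs u)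

theorem tcontD (c : Coef) (u : Test) :
    Continuous (fun x => ((√(c.a x) : ℝ) : ℂ) * deriv (u : ℝ → ℂ) x) := by
  apply Continuous.mul
  · exact Complex.continuous_ofReal.comp (Real.continuous_sqrt.comp c.a_cont)
  · exact (deriv_smooth (tcd u)).continuous

theorem tcsD (c : Coef) (u : Test) :
    HasCompactSupport (fun x => ((√(c.a x) : ℝ) : ℂ) * deriv (u : ℝ → ℂ) x) :=
  ((tcs u).deriv).mul_left

theorem tmemLpD (c : Coef) (u : Test) :
    MemLp (fun x => ((√(c.a x) : ℝ) : ℂ) * deriv (u : ℝ → ℂ) x) 2 volume :=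
  (tcontD c u).memLp_of_hasCompactSupport (tcsD c u)

theorem inner_toLp {f g : ℝ → ℂ} (hf : MemLp f 2 volume) (hg : MemLp g 2 volume) :
    inner ℂ (hf.toLp f) (hg.toLp g) = ∫ x, conj (f x) * g x := by
  rw [L2.inner_def]
  apply integral_congr_ae
  filter_upwards [hf.coeFn_toLp, hg.coeFn_toLp] with x h1 h2
  rw [h1, h2]
  simp [mul_comm]

theorem norm_toLp_sq {f : ℝ → ℂ} (hf : MemLp f 2 volume) :
    ‖hf.toLp f‖ ^ 2 = ∫ x, ‖f x‖ ^ 2 := by
  have h1 : ((‖hf.toLp f‖ ^ 2 : ℝ) : ℂ) = ((∫ x, ‖f x‖ ^ 2 : ℝ) : ℂ) := by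
    have h2 := inner_self_eq_norm_sq_to_K (𝕜 := ℂ) (hf.toLp f)
    rw [inner_toLp] at h2
    have h3 : ((∫ x, ‖f x‖ ^ 2 : ℝ) : ℂ) = ∫ x, ((‖f x‖ ^ 2 : ℝ) : ℂ) :=
      integral_ofReal.symm
    rw [h3]
    push_cast
    have h4 : ((‖hf.toLp f‖ : ℝ) : ℂ) ^ 2 = ∫ x, conj (f x) * f x := h2.symm
    rw [h4]
    congr 1
    funext x
    rw [mul_comm, Complex.mul_conj, Complex.normSq_eq_norm_sq]
    push_cast
    rfl
  exact_mod_cast h1

/-- `u ↦ (u, √a u')`. -/
def iota (c : Coef) : Test →ₗ[ℂ] WithLp 2 (L2 × L2) where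
  toFun u := WithLp.toLp 2 ((tmemLp u).toLp _, (tmemLpD c u).toLp _)
  map_add' := by
    intro u v
    rw [← WithLp.toLp_add]
    congr 1
    ext1
    · exact MemLp.toLp_add (tmemLp u) (tmemLp v)
    · simp only [Prod.mk_add_mk]
      rw [← MemLp.toLp_add (tmemLpD c u) (tmemLpD c v)]
      apply MemLp.toLp_congr
      apply Filter.Eventually.of_forall
      intro x
      simp only [Submodule.coe_add, Pi.add_apply]
      rw [deriv_add ((tdiff u) x) ((tdiff v) x)]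
      ring
  map_smul' := by
    intro r u
    rw [RingHom.id_apply, ← WithLp.toLp_smul]
    congr 1
    ext1
    · exact MemLp.toLp_const_smul r (tmemLp u)
    · simp only [Prod.smul_mk]
      rw [← MemLp.toLp_const_smul r (tmemLpD c u)]
      apply MemLp.toLp_congr
      apply Filter.Eventually.of_forall
      intro x
      simp only [Submodule.coe_smul, Pi.smul_apply, smul_eq_mul]
      rw [deriv_const_smul_field]
      simp only [smul_eq_mul]
      ring

/-- the form space -/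
def Ksub (c : Coef) : Submodule ℂ (WithLp 2 (L2 × L2)) :=
  (LinearMap.range (iota c)).topologicalClosure

abbrev KS (c : Coef) : Type := ↥(Ksub c)

instance (c : Coef) : CompleteSpace (KS c) :=
  (Submodule.isClosed_topologicalClosure _).completeSpace_coe

/-- embedding of test functions -/
def emb (c : Coef) : Test →ₗ[ℂ] KS c :=
  (iota c).codRestrict (Ksub c) (fun u => Submodule.le_topologicalClosure _ ⟨u, rfl⟩)

theorem emb_dense (c : Coef) : DenseRange (emb c) := by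
  rw [DenseRange, Subtype.dense_iff]
  intro k hk
  have h1 : k ∈ closure ((LinearMap.range (iota c) : Submodule ℂ _) : Set (WithLp 2 (L2 × L2))) := by
    rw [← Submodule.topologicalClosure_coe]; exact hk
  refine closure_mono ?_ h1
  rintro _ ⟨u, rfl⟩
  exact ⟨emb c u, ⟨u, rfl⟩, rfl⟩

/-- the projection `K → L²` -/
def pr (c : Coef) : KS c →L[ℂ] L2 := (WithLp.fstL 2 ℂ L2 L2).comp (Ksub c).subtypeL

theorem pr_emb (c : Coef) (u : Test) : pr c (emb c u) = (tmemLp u).toLp _ := rfl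

theorem pr_norm (c : Coef) : ‖pr c‖ ≤ 1 := by
  apply ContinuousLinearMap.opNorm_le_bound _ zero_le_one
  intro k
  rw [one_mul]
  have h1 : ‖(k : WithLp 2 (L2 × L2))‖ ^ 2 = ‖(k : WithLp 2 (L2 × L2)).fst‖ ^ 2
      + ‖(k : WithLp 2 (L2 × L2)).snd‖ ^ 2 := WithLp.prod_norm_sq_eq_of_L2 _
  have h2 : ‖pr c k‖ ^ 2 ≤ ‖k‖ ^ 2 := by
    have : ‖pr c k‖ = ‖(k : WithLp 2 (L2 × L2)).fst‖ := rfl
    rw [this, Submodule.coe_norm, h1]
    nlinarith [sq_nonneg ‖(k : WithLp 2 (L2 × L2)).snd‖]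
  exact (sq_le_sq₀ (norm_nonneg _) (norm_nonneg _)).mp h2

/-- energy of a function -/
def energy (c : Coef) (u : ℝ → ℂ) : ℝ := ∫ x, c.a x * ‖deriv u x‖ ^ 2

theorem norm_emb_sq (c : Coef) (u : Test) :
    ‖emb c u‖ ^ 2 = (∫ x, ‖(u : ℝ → ℂ) x‖ ^ 2) + energy c u := by
  have h1 : ‖emb c u‖ ^ 2 = ‖(tmemLp u).toLp _‖ ^ 2 + ‖(tmemLpD c u).toLp _‖ ^ 2 :=
    WithLp.prod_norm_sq_eq_of_L2 _
  rw [h1, norm_toLp_sq, norm_toLp_sq]
  congr 1
  unfold energy
  congr 1
  funext x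
  rw [norm_mul, Complex.norm_real, mul_pow, Real.norm_eq_abs, sq_abs,
    Real.sq_sqrt (c.a_pos x).le]

theorem Een_emb (c : Coef) (u : Test) (ε : ℝ) :
    Een (pr c) ε (emb c u) = ε * (∫ x, ‖(u : ℝ → ℂ) x‖ ^ 2) + energy c u := by
  unfold Een
  rw [norm_emb_sq, pr_emb, norm_toLp_sq]
  ring

theorem inner_emb (c : Coef) (u v : Test) :
    inner ℂ (emb c u) (emb c v) = (∫ x, conj ((u : ℝ → ℂ) x) * (v : ℝ → ℂ) x)
      + ∫ x, (c.a x : ℂ) * (conj (deriv (u : ℝ → ℂ) x) * deriv (v : ℝ → ℂ) x) := by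
  have h1 : inner ℂ (emb c u) (emb c v) = inner ℂ ((tmemLp u).toLp _) ((tmemLp v).toLp _)
      + inner ℂ ((tmemLpD c u).toLp _) ((tmemLpD c v).toLp _) := rfl
  rw [h1, inner_toLp, inner_toLp]
  congr 1
  congr 1
  funext x
  rw [map_mul, Complex.conj_ofReal]
  have h2 : ((√(c.a x) : ℝ) : ℂ) * ((√(c.a x) : ℝ) : ℂ) = (c.a x : ℂ) := by
    rw [← Complex.ofReal_mul, Real.mul_self_sqrt (c.a_pos x).le]
  rw [← h2]
  ring

end

end Pool.Agent.Helper406.HK
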