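import Pool.Agent.Helper406.HK.Bd

set_option autoImplicit false
set_option linter.unusedSectionVars false

open MeasureTheory Set Filter Topology InnerProductSpace
open scoped ContDiff ComplexConjugate

namespace Pool.Agent.Helper406.HK

noncomputable section

/-- smooth staircase -/
def stair (z w : ℕ → ℝ) (x : ℝ) : ℝ :=
  ∑ k ∈ Finset.range ⌈x⌉₊, w k * Real.smoothTransition (x - z k)

variable {z w : ℕ → ℝ}

theorem stair_eq (hz : ∀ k : ℕ, (k : ℝ) ≤ z k) {x : ℝ} {N : ℕ} (hN : x ≤ N) :
    stair z w x = ∑ k ∈ Finset.range N, w k * Real.smoothTransition (x - z k) := by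
  have h1 : ⌈x⌉₊ ≤ N := Nat.ceil_le.mpr hN
  unfold stair
  apply Finset.sum_subset (Finset.range_mono h1)
  intro k _ hk
  rw [Finset.mem_range, not_lt] at hk
  have h2 : x ≤ k := Nat.ceil_le.mp hk
  rw [Real.smoothTransition.zero_of_nonpos (by linarith [hz k]), mul_zero]

theorem stair_nonpos {x : ℝ} (hx : x ≤ 0) : stair z w x = 0 := by
  unfold stair
  rw [Nat.ceil_eq_zero.mpr hx]
  simp

theorem stair_smooth (hz : ∀ k : ℕ, (k : ℝ) ≤ z k) : ContDiff ℝ ∞ (stair z w) := by
  rw [contDiff_iff_contDiffAt]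
  intro x
  set N := ⌈x⌉₊ + 1 with hN
  have hxN : x < N := by
    have := Nat.le_ceil x
    rw [hN]; push_cast; linarith
  have h1 : stair z w =ᶠ[𝓝 x]
      fun y => ∑ k ∈ Finset.range N, w k * Real.smoothTransition (y - z k) := by
    filter_upwards [gt_mem_nhds hxN] with y hy
    exact stair_eq hz hy.le
  refine ContDiffAt.congr_of_eventuallyEq ?_ h1
  apply ContDiff.contDiffAt
  apply ContDiff.sum
  intro k _
  exact contDiff_const.mul (Real.smoothTransition.contDiff.comp (contDiff_id.sub contDiff_const))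

theorem stair_mono (hz : ∀ k : ℕ, (k : ℝ) ≤ z k) (hw : ∀ k, 0 ≤ w k) : Monotone (stair z w) := by
  intro x y hxy
  have hy := Nat.le_ceil y
  rw [stair_eq hz (hxy.trans hy), stair_eq hz hy]
  apply Finset.sum_le_sum
  intro k _
  exact mul_le_mul_of_nonneg_left (Real.smoothTransition.monotone (by linarith)) (hw k)

theorem stair_val (hz : ∀ k : ℕ, (k : ℝ) ≤ z k) {x : ℝ} {n : ℕ} (h1 : ∀ k < n, z k + 1 ≤ x)
    (h2 : ∀ k, n ≤ k → x ≤ z k) : stair z w x = ∑ k ∈ Finset.range n, w k := by
  set N := max ⌈x⌉₊ n with hN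
  have h3 : x ≤ N := (Nat.le_ceil x).trans (by exact_mod_cast le_max_left _ _)
  rw [stair_eq hz h3]
  have h4 : ∑ k ∈ Finset.range n, w k * Real.smoothTransition (x - z k)
      = ∑ k ∈ Finset.range N, w k * Real.smoothTransition (x - z k) := by
    apply Finset.sum_subset (Finset.range_mono (le_max_right _ _))
    intro k _ hk
    rw [Finset.mem_range, not_lt] at hk
    rw [Real.smoothTransition.zero_of_nonpos (by linarith [h2 k hk]), mul_zero]
  rw [← h4]
  apply Finset.sum_congr rfl
  intro k hk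
  rw [Finset.mem_range] at hk
  rw [Real.smoothTransition.one_of_one_le (by linarith [h1 k hk]), mul_one]

/-- coefficient with scale function `arctan x + stair x - stair (-x)` -/
def coefOf (z w : ℕ → ℝ) (hz : ∀ k : ℕ, (k : ℝ) ≤ z k) (hw : ∀ k, 0 ≤ w k) : Coef where
  S := fun x => Real.arctan x + (stair z w x - stair z w (-x))
  smooth := Real.contDiff_arctan.add
    ((stair_smooth hz).sub ((stair_smooth hz).comp contDiff_neg))
  pos := by
    intro x
    have hd : Differentiable ℝ (stair z w) := (stair_smooth hz).differentiable (by simp)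
    have h1 : HasDerivAt (fun x => Real.arctan x + (stair z w x - stair z w (-x)))
        (1 / (1 + x ^ 2) + (deriv (stair z w) x - deriv (stair z w) (-x) * (-1))) x :=
      (Real.hasDerivAt_arctan x).add ((hd x).hasDerivAt.sub
        ((hd (-x)).hasDerivAt.comp x (hasDerivAt_neg x)))
    rw [h1.deriv]
    have h2 : 0 ≤ deriv (stair z w) x := (stair_mono hz hw).deriv_nonneg
    have h3 : 0 ≤ deriv (stair z w) (-x) := (stair_mono hz hw).deriv_nonneg
    have h4 : 0 < 1 / (1 + x ^ 2) := by positivity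
    linarith

theorem coefOf_odd (hz : ∀ k : ℕ, (k : ℝ) ≤ z k) (hw : ∀ k, 0 ≤ w k) (x : ℝ) :
    (coefOf z w hz hw).S (-x) = - (coefOf z w hz hw).S x := by
  show Real.arctan (-x) + (stair z w (-x) - stair z w (- -x))
    = - (Real.arctan x + (stair z w x - stair z w (-x)))
  rw [Real.arctan_neg, neg_neg]
  ring

theorem coefOf_S (hz : ∀ k : ℕ, (k : ℝ) ≤ z k) (hw : ∀ k, 0 ≤ w k) {x : ℝ} (hx : 0 ≤ x) :
    (coefOf z w hz hw).S x = Real.arctan x + stair z w x := by
  show Real.arctan x + (stair z w x - stair z w (-x)) = _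
  rw [stair_nonpos (x := -x) (by linarith)]
  ring

theorem arctan_le_self' {x : ℝ} (hx : 0 < x) : Real.arctan x ≤ x := by
  have h1 : 0 < Real.arctan x := by
    have := Real.arctan_strictMono hx
    rwa [Real.arctan_zero] at this
  have h2 := Real.lt_tan h1 (Real.arctan_lt_pi_div_two x)
  rw [Real.tan_arctan] at h2
  exact h2.le

theorem arctan_sub_le {X Y : ℝ} (hX : 0 < X) : Real.arctan Y - Real.arctan X ≤ 1 / X := by
  have h1 := Real.arctan_inv_of_pos hX
  have h2 := Real.arctan_lt_pi_div_two Y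
  have h3 := arctan_le_self' (inv_pos.mpr hX)
  rw [one_div]
  linarith

end

end Pool.Agent.Helper406.HK
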