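import Pool.Agent.Helper406.HK.Form

set_option autoImplicit false
set_option linter.unusedSectionVars false

open MeasureTheory Set Filter Topology InnerProductSpace
open scoped ContDiff ComplexConjugate

namespace Pool.Agent.Helper406.HK

noncomputable section

theorem interval_le_integral {f : ℝ → ℝ} (hf : Integrable f) (h0 : ∀ x, 0 ≤ f x) {p q : ℝ}
    (hpq : p ≤ q) : ∫ x in p..q, f x ≤ ∫ x, f x := by
  rw [intervalIntegral.integral_of_le hpq]
  exact setIntegral_le_integral hf (Filter.Eventually.of_forall h0)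

theorem sq_cs {f : ℝ → ℂ} (hf : HasCompactSupport f) :
    HasCompactSupport (fun x => ‖f x‖ ^ 2) := by
  have h1 : HasCompactSupport (fun x => ‖f x‖ * ‖f x‖) := hf.norm.mul_left
  have h2 : (fun x => ‖f x‖ ^ 2) = (fun x => ‖f x‖ * ‖f x‖) := by funext x; ring
  rw [h2]; exact h1

theorem tint_sq (u : Test) : Integrable (fun x => ‖(u : ℝ → ℂ) x‖ ^ 2) :=
  Continuous.integrable_of_hasCompactSupport ((tcd u).continuous.norm.pow 2) (sq_cs (tcs u))

theorem tint_en (c : Coef) (u : Test) :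
    Integrable (fun x => c.a x * ‖deriv (u : ℝ → ℂ) x‖ ^ 2) := by
  apply Continuous.integrable_of_hasCompactSupport
    (c.a_cont.mul ((norm_deriv_cont (tcd u)).pow 2))
  exact (sq_cs (tcs u).deriv).mul_left

theorem energy_nonneg (c : Coef) (u : ℝ → ℂ) : 0 ≤ energy c u :=
  integral_nonneg (fun x => mul_nonneg (c.a_pos x).le (sq_nonneg _))

/-- evaluation -/
def ev (x : ℝ) : Test →ₗ[ℂ] ℂ where
  toFun u := (u : ℝ → ℂ) x
  map_add' _ _ := rfl
  map_smul' _ _ := rfl

theorem ev_bound (c : Coef) (x : ℝ) (u : Test) :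
    ‖ev x u‖ ≤ √(1 + (c.S (x + 1) - c.S x)) * ‖emb c u‖ := by
  have h1 := window c (tcd u) (p := x) (q := x + 1) (x := x) (η := 1) (by linarith)
    ⟨le_refl _, by linarith⟩ one_pos
  have h2 : (1 / (1 * (x + 1 - x)) + (c.S (x + 1) - c.S x)) = 1 + (c.S (x + 1) - c.S x) := by
    rw [show x + 1 - x = 1 by ring]; norm_num
  rw [h2, one_mul] at h1
  have hS : 0 < c.S (x + 1) - c.S x := sub_pos.mpr (c.S_strictMono (by linarith))
  have h3 : ‖(u : ℝ → ℂ) x‖ ^ 2 ≤ (1 + (c.S (x + 1) - c.S x)) * ‖emb c u‖ ^ 2 := by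
    refine h1.trans ?_
    rw [norm_emb_sq]
    apply mul_le_mul_of_nonneg_left _ (by linarith)
    apply add_le_add
    · exact interval_le_integral (tint_sq u) (fun _ => sq_nonneg _) (by linarith)
    · exact interval_le_integral (tint_en c u)
        (fun z => mul_nonneg (c.a_pos z).le (sq_nonneg _)) (by linarith)
  have h4 : 0 ≤ √(1 + (c.S (x + 1) - c.S x)) * ‖emb c u‖ := by positivity
  apply (sq_le_sq₀ (norm_nonneg _) h4).mp
  rw [mul_pow, Real.sq_sqrt (by linarith)]
  exact h3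

/-- evaluation on the form space -/
def evK (c : Coef) (x : ℝ) : KS c →L[ℂ] ℂ := (ev x).extendOfNorm (emb c)

theorem evK_emb (c : Coef) (x : ℝ) (u : Test) : evK c x (emb c u) = (u : ℝ → ℂ) x :=
  LinearMap.extendOfNorm_eq (emb_dense c) ⟨_, ev_bound c x⟩ u

/-- the representing vector of the evaluation at `x` -/
def gv (c : Coef) (x : ℝ) : KS c := (InnerProductSpace.toDual ℂ (KS c)).symm (evK c x)

theorem inner_gv (c : Coef) (x : ℝ) (k : KS c) : inner ℂ (gv c x) k = evK c x k := by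
  unfold gv
  rw [InnerProductSpace.toDual_symm_apply]

theorem inner_gv_emb (c : Coef) (x : ℝ) (u : Test) :
    inner ℂ (gv c x) (emb c u) = (u : ℝ → ℂ) x := by
  rw [inner_gv, evK_emb]

/-- extension of inequalities by density -/
theorem dense_ineq (c : Coef) {p : KS c → Prop} (hp : IsClosed {k | p k})
    (h : ∀ u : Test, p (emb c u)) (k : KS c) : p k :=
  (emb_dense c).induction_on k hp h

theorem gv_dist (c : Coef) {x y : ℝ} (hxy : x < y) :
    ‖gv c x - gv c y‖ ≤ √(c.S y - c.S x) := by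
  have hS : 0 < c.S y - c.S x := sub_pos.mpr (c.S_strictMono hxy)
  have h1 : ∀ k : KS c, ‖(inner ℂ (gv c x - gv c y) k : ℂ)‖ ≤ √(c.S y - c.S x) * ‖k‖ := by
    apply dense_ineq c (p := fun k => ‖(inner ℂ (gv c x - gv c y) k : ℂ)‖
      ≤ √(c.S y - c.S x) * ‖k‖)
    · exact isClosed_le (innerSL ℂ (gv c x - gv c y)).continuous.norm
        (continuous_const.mul continuous_norm)
    · intro u
      rw [inner_sub_left, inner_gv_emb, inner_gv_emb]
      have h4 : 0 ≤ √(c.S y - c.S x) * ‖emb c u‖ := by positivity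
      apply (sq_le_sq₀ (norm_nonneg _) h4).mp
      rw [mul_pow, Real.sq_sqrt hS.le]
      refine (norm_sub_sq_le c (tcd u) hxy ⟨le_refl _, hxy.le⟩ ⟨hxy.le, le_refl _⟩).trans ?_
      apply mul_le_mul_of_nonneg_left _ hS.le
      rw [norm_emb_sq]
      have h5 := interval_le_integral (tint_en c u)
        (fun z => mul_nonneg (c.a_pos z).le (sq_nonneg _)) hxy.le
      have h6 : 0 ≤ ∫ x, ‖(u : ℝ → ℂ) x‖ ^ 2 := integral_nonneg (fun _ => sq_nonneg _)
      unfold energy
      linarith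
  have h2 := h1 (gv c x - gv c y)
  rcases (norm_nonneg (gv c x - gv c y)).eq_or_lt with h3 | h3
  · rw [← h3]; positivity
  · have h4 : ‖(inner ℂ (gv c x - gv c y) (gv c x - gv c y) : ℂ)‖
        = ‖gv c x - gv c y‖ * ‖gv c x - gv c y‖ := by
      have := inner_self_eq_norm_sq_to_K (𝕜 := ℂ) (gv c x - gv c y)
      rw [this, norm_pow]
      simp [sq]
    have h5 : ‖gv c x - gv c y‖ * ‖gv c x - gv c y‖ ≤ √(c.S y - c.S x) * ‖gv c x - gv c y‖ := by
      rw [← h4]; exact h2
    exact le_of_mul_le_mul_right h5 h3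

theorem gv_cont (c : Coef) : Continuous (gv c) := by
  rw [continuous_iff_continuousAt]
  intro x
  rw [ContinuousAt, tendsto_iff_norm_sub_tendsto_zero]
  have h1 : ∀ y, ‖gv c y - gv c x‖ ≤ √|c.S y - c.S x| := by
    intro y
    rcases lt_trichotomy x y with h | h | h
    · rw [norm_sub_rev, abs_of_pos (sub_pos.mpr (c.S_strictMono h))]
      exact gv_dist c h
    · rw [h]; simp
    · rw [abs_sub_comm, abs_of_pos (sub_pos.mpr (c.S_strictMono h))]
      exact gv_dist c h
  have h2 : Tendsto (fun y => √|c.S y - c.S x|) (𝓝 x) (𝓝 0) := by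
    have h3 : Continuous (fun y => √|c.S y - c.S x|) :=
      Real.continuous_sqrt.comp ((c.smooth.continuous.sub continuous_const).abs)
    have h4 := h3.tendsto x
    simpa using h4
  exact squeeze_zero (fun _ => norm_nonneg _) h1 h2

theorem pr_ae (c : Coef) (k : KS c) :
    (pr c k : ℝ → ℂ) =ᵐ[volume] fun x => inner ℂ (gv c x) k := by
  have h1 : k ∈ closure (Set.range (emb c)) := emb_dense c k
  rw [mem_closure_iff_seq_limit] at h1
  obtain ⟨s, hs, hlim⟩ := h1
  choose u hu using hs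
  have h2 : Tendsto (fun n => pr c (s n)) atTop (𝓝 (pr c k)) :=
    ((pr c).continuous.tendsto k).comp hlim
  have h3 : TendstoInMeasure volume (fun n => (pr c (s n) : ℝ → ℂ)) atTop (pr c k : ℝ → ℂ) :=
    tendstoInMeasure_of_tendsto_Lp h2
  obtain ⟨ns, hns, hae⟩ := h3.exists_seq_tendsto_ae
  have h4 : ∀ᵐ x, ∀ n, (pr c (s n) : ℝ → ℂ) x = (u n : ℝ → ℂ) x := by
    rw [ae_all_iff]
    intro n
    rw [← hu n, pr_emb]
    exact (tmemLp (u n)).coeFn_toLp
  filter_upwards [hae, h4] with x hx hx4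
  have h5 : Tendsto (fun n => (inner ℂ (gv c x) (s (ns n)) : ℂ)) atTop
      (𝓝 (inner ℂ (gv c x) k)) := by
    have : Tendsto (fun n => s (ns n)) atTop (𝓝 k) := hlim.comp hns.tendsto_atTop
    exact tendsto_const_nhds.inner this
  have h6 : ∀ n, (inner ℂ (gv c x) (s (ns n)) : ℂ) = (pr c (s (ns n)) : ℝ → ℂ) x := by
    intro n
    rw [hx4, ← hu (ns n), inner_gv_emb]
  simp_rw [h6] at h5
  exact tendsto_nhds_unique hx h5

/-- the resolvent `(H+1)⁻¹` -/
def Rc (c : Coef) : L2 →L[ℂ] L2 := Rop (pr c)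

/-- the heat kernel -/
def pk (c : Coef) (t x y : ℝ) : ℂ :=
  inner ℂ (pr c (gv c x)) (fc (bfun t) (Rc c) (pr c (gv c y)))

theorem Rc_sa (c : Coef) : IsSelfAdjoint (Rc c) := Rop_sa _

theorem Rc_apply (c : Coef) (f : L2) : Rc c f = pr c (ContinuousLinearMap.adjoint (pr c) f) := rfl

theorem pk_kernel (c : Coef) {t : ℝ} (ht : 0 < t) (f : L2) :
    (fc (hfun t) (Rc c) f : ℝ → ℂ) =ᵐ[volume] fun x => ∫ y, pk c t x y * f y := by
  rw [fc_hfun (Rc_sa c) ht]
  set B := fc (bfun t) (Rc c) with hB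
  have h1 : (Rc c ∘L B ∘L Rc c) f
      = pr c (ContinuousLinearMap.adjoint (pr c) (B (Rc c f))) := rfl
  rw [h1]
  filter_upwards [pr_ae c (ContinuousLinearMap.adjoint (pr c) (B (Rc c f)))] with x hx
  rw [hx, ContinuousLinearMap.adjoint_inner_right, hB, fc_symm, inner_symm_of_sa (Rc_sa c),
    ← hB, Rc_apply, L2.inner_def]
  apply integral_congr_ae
  filter_upwards [pr_ae c (ContinuousLinearMap.adjoint (pr c) (B (pr c (gv c x))))] with y hy
  rw [hy, ContinuousLinearMap.adjoint_inner_right]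
  have h2 : pk c t x y = conj (inner ℂ (pr c (gv c y)) (B (pr c (gv c x)))) := by
    rw [inner_conj_symm, hB, ← fc_symm]
    rfl
  rw [h2]
  simp [mul_comm]

theorem pk_cont (c : Coef) (t : ℝ) :
    Continuous (fun z : ℝ × ℝ => pk c t z.1 z.2) := by
  unfold pk
  have h1 := gv_cont c
  apply Continuous.inner
  · exact (pr c).continuous.comp (h1.comp continuous_fst)
  · exact (fc (bfun t) (Rc c)).continuous.comp ((pr c).continuous.comp (h1.comp continuous_snd))

theorem pk_diag_re (c : Coef) (t : ℝ) : (pk c t 0 0).re = pdiag (pr c) (gv c 0) t := rfl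

theorem pk_diag_im (c : Coef) (t x : ℝ) : (pk c t x x).im = 0 := by
  have h1 : conj (pk c t x x) = pk c t x x := by
    unfold pk
    rw [inner_conj_symm, ← fc_symm]
  exact Complex.conj_eq_iff_im.mp h1

end

end Pool.Agent.Helper406.HK
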