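import Pool.Agent.Helper406.HK.Props

set_option autoImplicit false
set_option linter.unusedSectionVars false

open MeasureTheory Set Filter Topology InnerProductSpace
open scoped ContDiff ComplexConjugate

namespace Pool.Agent.Helper406.HK

noncomputable section

/-- diagonal heat kernel at 0 -/
def pd (c : Coef) (t : ℝ) : ℝ := pdiag (pr c) (gv c 0) t

theorem pd_pos (c : Coef) {t : ℝ} (ht : 0 < t) : 0 < pd c t :=
  pdiag_pos (pr_norm c) (pr_gv_ne c) ht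

theorem pd_upper (c : Coef) (hodd : ∀ x, c.S (-x) = - c.S x) {t X Y : ℝ} (ht : 2 ≤ t)
    (hX : 0 < X) (hY : 0 < Y) :
    pd c t ≤ 3 / (2 * t) * (c.S Y - c.S X + t / Y + 2 / t * X * c.S X ^ 2) := by
  have ht0 : 0 < t := by linarith
  have h1 := pdiag_le (pr_norm c) (gv c 0) ht
  have h2 := MM_upper c hodd (η := 1 / t) (Y := Y) (by positivity)
    (by rw [div_le_one ht0]; linarith) hY
  have h3 := MM_lower c hodd (η := 2 / t) (X := X) (by positivity)
    (by rw [div_le_one ht0]; linarith) hX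
  have h4 : 1 / (1 / t * Y) = t / Y := by field_simp
  rw [h4] at h2
  have h5 : pd c t ≤ 3 / t * (MM c (1 / t) - MM c (2 / t)) := h1
  refine h5.trans ?_
  have h6 : 3 / (2 * t) * (c.S Y - c.S X + t / Y + 2 / t * X * c.S X ^ 2)
      = 3 / t * ((1 / 2) * (c.S Y + t / Y) - (1 / 2) * (c.S X - 2 / t * X * c.S X ^ 2)) := by
    field_simp
    ring
  rw [h6]
  apply mul_le_mul_of_nonneg_left _ (by positivity)
  linarith

theorem pd_lower (c : Coef) (hodd : ∀ x, c.S (-x) = - c.S x) (hb : ∀ x, |c.S x| ≤ 4)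
    {t ε ε' q X Y : ℝ} (ht : 2 ≤ t) (h0 : 0 < ε) (hεε : ε ≤ ε') (h1 : ε' ≤ 1) (hq : 0 < q)
    (hX : 0 < X) (hY : 0 < Y) (hS : q ≤ c.S X - c.S Y) (e1 : ε * X = q / 64)
    (e2 : 1 / (ε' * Y) = q / 4) (e3 : 18 * ε' * t = q / 8) :
    ε * q / (8 * Real.exp 1) ≤ pd c t := by
  have ht0 : 0 < t := by linarith
  have h0' : 0 < ε' := by linarith
  have h2 := le_pdiag (pr_norm c) (gv c 0) ht h0 hεε h1
  have h3 := MM_lower c hodd (η := ε) (X := X) h0 (by linarith) hX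
  have h4 := MM_upper c hodd (η := ε') (Y := Y) h0' h1 hY
  have h5 := MM_upper c hodd (η := 1 / t) (Y := t) (by positivity)
    (by rw [div_le_one ht0]; linarith) ht0
  have h6 := MM_nonneg c (ε := 2 / t) (by positivity) (by rw [div_le_one ht0]; linarith)
  rw [e1] at h3
  rw [e2] at h4
  have h7 : 1 / (1 / t * t) = 1 := by field_simp
  rw [h7] at h5
  have h8 : MM c (1 / t) ≤ 3 := by
    have := abs_le.mp (hb t)
    linarith
  have h9 : c.S X ^ 2 ≤ 16 := by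
    have := abs_le.mp (hb X)
    nlinarith
  have h10 : q / 64 * c.S X ^ 2 ≤ q / 4 := by nlinarith
  have h11 : q / 4 ≤ MM c ε - MM c ε' := by linarith
  have h12 : MM c ε - MM c ε' ≤ Real.exp 1 / ε * pd c t
      + 6 * ε' * t * (MM c (1 / t) - MM c (2 / t)) := h2
  have h13 : 6 * ε' * t * (MM c (1 / t) - MM c (2 / t)) ≤ q / 8 := by
    rw [← e3]
    have : 6 * ε' * t * (MM c (1 / t) - MM c (2 / t)) ≤ 6 * ε' * t * 3 := by
      apply mul_le_mul_of_nonneg_left _ (by positivity)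
      linarith
    linarith
  have h14 : q / 8 ≤ Real.exp 1 / ε * pd c t := by linarith
  have he := Real.exp_pos 1
  rw [div_mul_eq_mul_div, div_le_div_iff₀ (by norm_num) h0] at h14
  rw [div_le_iff₀ (by positivity)]
  linarith

/-- the scales -/
def zz (n : ℕ) : ℝ := (2 : ℝ) ^ (4 ^ n)

theorem zz_two (n : ℕ) : 2 ≤ zz n := by
  unfold zz
  calc (2 : ℝ) = 2 ^ 1 := by norm_num
    _ ≤ 2 ^ (4 ^ n) := pow_le_pow_right₀ (by norm_num) (Nat.one_le_pow _ _ (by norm_num))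

theorem zz_pos (n : ℕ) : 0 < zz n := by linarith [zz_two n]

theorem zz_succ (n : ℕ) : zz (n + 1) = zz n ^ 4 := by
  unfold zz
  rw [← pow_mul, pow_succ]

theorem zz_mono {k n : ℕ} (h : k ≤ n) : zz k ≤ zz n := by
  unfold zz
  exact pow_le_pow_right₀ (by norm_num) (Nat.pow_le_pow_right (by norm_num) h)

theorem zz_gap {k n : ℕ} (h : k < n) : zz k + 1 ≤ zz n := by
  have h1 := zz_mono (Nat.succ_le_of_lt h)
  rw [Nat.succ_eq_add_one, zz_succ] at h1
  have h2 := zz_two k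
  have h3 : zz k + 1 ≤ zz k ^ 4 := by
    have : zz k ^ 4 = zz k * zz k ^ 3 := by ring
    have h4 : (8 : ℝ) ≤ zz k ^ 3 := by
      calc (8 : ℝ) = 2 ^ 3 := by norm_num
        _ ≤ zz k ^ 3 := by gcongr
    nlinarith
  linarith

theorem nat_le_zz (n : ℕ) : (n : ℝ) ≤ zz n := by
  unfold zz
  have h1 : n ≤ 2 ^ (4 ^ n) := by
    calc n ≤ 4 ^ n := (Nat.lt_pow_self (by norm_num)).le
      _ ≤ 2 ^ (4 ^ n) := (Nat.lt_pow_self (by norm_num)).le
  exact_mod_cast h1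

theorem zz_sq_gap {k n : ℕ} (h : k < n) : zz k ^ 2 + 1 ≤ zz n ^ 2 := by
  have h1 := zz_gap h
  have h2 := zz_pos k
  nlinarith

theorem nat_le_zz_sq (n : ℕ) : (n : ℝ) ≤ zz n ^ 2 := by
  have h1 := nat_le_zz n
  have h2 := zz_two n
  nlinarith

/-- critical coefficient -/
def c0 : Coef := coefOf zz (fun _ => 1) nat_le_zz (fun _ => zero_le_one)

/-- subcritical coefficient -/
def c1 : Coef := coefOf (fun k => zz k ^ 2) (fun k => (1 / 2) ^ k) nat_le_zz_sq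
  (fun _ => by positivity)

theorem c0_odd (x : ℝ) : c0.S (-x) = - c0.S x := coefOf_odd _ _ x

theorem c1_odd (x : ℝ) : c1.S (-x) = - c1.S x := coefOf_odd _ _ x

theorem c0_S_X (n : ℕ) : c0.S (zz n + 1) = Real.arctan (zz n + 1) + (n + 1) := by
  have h1 := zz_pos n
  unfold c0
  rw [coefOf_S _ _ (by linarith), stair_val nat_le_zz (n := n + 1)]
  · simp
  · intro k hk
    have := zz_mono (Nat.lt_succ_iff.mp hk)
    linarith
  · intro k hk
    exact zz_gap (Nat.lt_of_succ_le hk)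

theorem c0_S_Y (n : ℕ) : c0.S (zz (n + 1)) = Real.arctan (zz (n + 1)) + (n + 1) := by
  have h1 := zz_pos (n + 1)
  unfold c0
  rw [coefOf_S _ _ (by linarith), stair_val nat_le_zz (n := n + 1)]
  · simp
  · intro k hk
    exact zz_gap hk
  · intro k hk
    exact zz_mono hk

theorem c1_S_X (n : ℕ) : c1.S (zz n ^ 2 + 1) = Real.arctan (zz n ^ 2 + 1)
    + ∑ k ∈ Finset.range (n + 1), (1 / 2 : ℝ) ^ k := by
  have h1 := zz_pos n
  unfold c1
  rw [coefOf_S _ _ (by positivity), stair_val nat_le_zz_sq (n := n + 1)]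
  · intro k hk
    have h2 := zz_mono (Nat.lt_succ_iff.mp hk)
    have h3 := zz_pos k
    have : zz k ^ 2 ≤ zz n ^ 2 := by gcongr
    linarith
  · intro k hk
    exact zz_sq_gap (Nat.lt_of_succ_le hk)

theorem c1_S_Y (n : ℕ) : c1.S (zz n ^ 2) = Real.arctan (zz n ^ 2)
    + ∑ k ∈ Finset.range n, (1 / 2 : ℝ) ^ k := by
  have h1 := zz_pos n
  unfold c1
  rw [coefOf_S _ _ (by positivity), stair_val nat_le_zz_sq (n := n)]
  · intro k hk
    exact zz_sq_gap hk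
  · intro k hk
    have h2 := zz_mono hk
    gcongr

theorem geom_le_two (n : ℕ) : ∑ k ∈ Finset.range n, (1 / 2 : ℝ) ^ k ≤ 2 := by
  rw [geom_sum_eq (by norm_num)]
  have h1 : (0 : ℝ) < (1 / 2) ^ n := by positivity
  have h2 : ((1 / 2 : ℝ) ^ n - 1) / (1 / 2 - 1) = 2 * (1 - (1 / 2) ^ n) := by
    field_simp
    ring
  rw [h2]
  linarith

theorem arctan_le_two (x : ℝ) : Real.arctan x ≤ 2 := by
  have h1 := Real.arctan_lt_pi_div_two x
  have h2 := Real.pi_lt_d2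
  linarith

theorem c1_bdd (x : ℝ) : |c1.S x| ≤ 4 := by
  have key : ∀ x : ℝ, 0 ≤ x → |c1.S x| ≤ 4 := by
    intro x hx
    have h1 : c1.S x = Real.arctan x + stair (fun k => zz k ^ 2) (fun k => (1 / 2) ^ k) x := by
      unfold c1
      rw [coefOf_S _ _ hx]
    have h2 : 0 ≤ stair (fun k => zz k ^ 2) (fun k => (1 / 2 : ℝ) ^ k) x := by
      unfold stair
      apply Finset.sum_nonneg
      intro k _
      exact mul_nonneg (by positivity) (Real.smoothTransition.nonneg _)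
    have h3 : stair (fun k => zz k ^ 2) (fun k => (1 / 2 : ℝ) ^ k) x ≤ 2 := by
      unfold stair
      refine le_trans ?_ (geom_le_two ⌈x⌉₊)
      apply Finset.sum_le_sum
      intro k _
      calc (1 / 2 : ℝ) ^ k * Real.smoothTransition (x - zz k ^ 2) ≤ (1 / 2 : ℝ) ^ k * 1 :=
            mul_le_mul_of_nonneg_left (Real.smoothTransition.le_one _) (by positivity)
        _ = (1 / 2 : ℝ) ^ k := mul_one _
    have h4 : 0 ≤ Real.arctan x := Real.arctan_nonneg.mpr hx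
    have h5 := arctan_le_two x
    rw [h1, abs_of_nonneg (by linarith)]
    linarith
  rcases le_total 0 x with h | h
  · exact key x h
  · have := key (-x) (by linarith)
    rwa [c1_odd, abs_neg] at this

theorem zz_big {n : ℕ} (hn : 3 ≤ n) : (64 : ℝ) ^ n ≤ zz n * ((1 / 2 : ℝ) ^ n) ^ 6 := by
  have h1 : 12 * n ≤ 4 ^ n := by
    induction n, hn using Nat.le_induction with
    | base => norm_num
    | succ m hm ih =>
      have : 12 * (m + 1) ≤ 4 * (12 * m) := by omega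
      calc 12 * (m + 1) ≤ 4 * (12 * m) := this
        _ ≤ 4 * 4 ^ m := by gcongr
        _ = 4 ^ (m + 1) := by ring
  have h2 : (2 : ℝ) ^ (12 * n) ≤ zz n := by
    unfold zz
    exact pow_le_pow_right₀ (by norm_num) h1
  have h3 : (2 : ℝ) ^ (12 * n) * ((1 / 2 : ℝ) ^ n) ^ 6 = 64 ^ n := by
    rw [show 12 * n = n * 12 by ring, pow_mul, ← pow_mul (1 / 2 : ℝ)]
    have e1 : (64 : ℝ) ^ n = (2 ^ n) ^ 6 := by
      rw [← pow_mul, mul_comm, pow_mul]; norm_num
    rw [e1, one_div, inv_pow, pow_mul (2 : ℝ) n 6]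
    field_simp
  rw [← h3]
  gcongr

theorem sq_le_pow {n : ℕ} (hn : 3 ≤ n) : ((n : ℝ) + 3) ^ 2 ≤ 4 * 4 ^ n := by
  have h1 : (n : ℝ) ≤ 2 ^ n := by
    have : n ≤ 2 ^ n := (Nat.lt_pow_self (by norm_num)).le
    exact_mod_cast this
  have h2 : (3 : ℝ) ≤ n := by exact_mod_cast hn
  have h3 : (4 : ℝ) ^ n = (2 ^ n) ^ 2 := by
    rw [← pow_mul, mul_comm, pow_mul]; norm_num
  rw [h3]
  nlinarith

/-- the times -/
def tt (n : ℕ) : ℝ := ((1 / 2 : ℝ) ^ n) ^ 2 * zz n ^ 2 / 576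

theorem tt_big {n : ℕ} (hn : 3 ≤ n) : (64 : ℝ) ^ n / 576 ≤ tt n := by
  unfold tt
  apply div_le_div_of_nonneg_right _ (by norm_num)
  refine (zz_big hn).trans ?_
  set q := (1 / 2 : ℝ) ^ n with hq
  have hq0 : 0 < q := by positivity
  have hq1 : q ≤ 1 := pow_le_one₀ (by norm_num) (by norm_num)
  have hz := zz_two n
  have h1 : q ^ 6 ≤ q ^ 2 := pow_le_pow_of_le_one hq0.le hq1 (by norm_num)
  calc zz n * q ^ 6 ≤ zz n ^ 2 * q ^ 2 := by
        apply mul_le_mul _ h1 (by positivity) (by positivity)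
        nlinarith
    _ = q ^ 2 * zz n ^ 2 := by ring

theorem tt_two {n : ℕ} (hn : 3 ≤ n) : 2 ≤ tt n := by
  refine le_trans ?_ (tt_big hn)
  have : (64 : ℝ) ^ 3 ≤ 64 ^ n := pow_le_pow_right₀ (by norm_num) hn
  rw [le_div_iff₀ (by norm_num)]
  refine le_trans ?_ this
  norm_num

theorem pd0_le {n : ℕ} (hn : 3 ≤ n) :
    pd c0 (tt n) ≤ 1992384 * ((n : ℝ) + 3) ^ 2 / (((1 / 2 : ℝ) ^ n) ^ 4 * zz n ^ 3) := by
  have ht2 := tt_two hn
  have hz := zz_two n
  have hz0 := zz_pos n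
  have h1 := pd_upper c0 c0_odd (X := zz n + 1) (Y := zz (n + 1)) ht2 (by linarith)
    (zz_pos (n + 1))
  refine h1.trans ?_
  rw [c0_S_X, c0_S_Y, zz_succ]
  have h2 := arctan_sub_le (X := zz n + 1) (Y := zz n ^ 4) (by linarith)
  have h3 := arctan_le_two (zz n + 1)
  have h3' : 0 ≤ Real.arctan (zz n + 1) := Real.arctan_nonneg.mpr (by linarith)
  unfold tt at *
  set q := (1 / 2 : ℝ) ^ n with hq
  have hq0 : 0 < q := by positivity
  have hq1 : q ≤ 1 := pow_le_one₀ (by norm_num) (by norm_num)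
  set z := zz n with hzdef
  have h4 : 1 / (z + 1) ≤ 1 / z := one_div_le_one_div_of_le hz0 (by linarith)
  have h5 : q ^ 2 * z ^ 2 / 576 / z ^ 4 ≤ 1 / z := by
    rw [div_div, div_le_div_iff₀ (by positivity) hz0]
    have : q ^ 2 ≤ 1 := pow_le_one₀ hq0.le hq1
    have h6 : q ^ 2 * z ^ 2 * z ≤ 1 * z ^ 2 * z := by gcongr
    nlinarith [pow_pos hz0 3, pow_pos hz0 4]
  have h6 : (Real.arctan (z + 1) + (n + 1)) ^ 2 ≤ ((n : ℝ) + 3) ^ 2 := by
    apply pow_le_pow_left₀ (by positivity)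
    linarith
  have h7 : 2 / (q ^ 2 * z ^ 2 / 576) * (z + 1) * (Real.arctan (z + 1) + (n + 1)) ^ 2
      ≤ 2304 * ((n : ℝ) + 3) ^ 2 / (q ^ 2 * z) := by
    have e1 : 2 / (q ^ 2 * z ^ 2 / 576) * (z + 1) * (Real.arctan (z + 1) + (n + 1)) ^ 2
        ≤ 2 / (q ^ 2 * z ^ 2 / 576) * (2 * z) * ((n : ℝ) + 3) ^ 2 := by
      gcongr
      linarith
    refine e1.trans (le_of_eq ?_)
    field_simp
    ring
  have h8 : 1 / z ≤ ((n : ℝ) + 3) ^ 2 / (q ^ 2 * z) := by
    rw [div_le_div_iff₀ hz0 (by positivity)]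
    have a1 : q ^ 2 ≤ 1 := pow_le_one₀ hq0.le hq1
    have a2 : (1 : ℝ) ≤ ((n : ℝ) + 3) ^ 2 := by
      have : (0 : ℝ) ≤ n := Nat.cast_nonneg n
      nlinarith
    calc 1 * (q ^ 2 * z) ≤ 1 * (1 * z) := by gcongr
      _ = 1 * z := by ring
      _ ≤ ((n : ℝ) + 3) ^ 2 * z := by gcongr
  have h9 : Real.arctan (z ^ 4) + ((n : ℝ) + 1) - (Real.arctan (z + 1) + (n + 1))
      + q ^ 2 * z ^ 2 / 576 / z ^ 4
      + 2 / (q ^ 2 * z ^ 2 / 576) * (z + 1) * (Real.arctan (z + 1) + (n + 1)) ^ 2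
      ≤ 2306 * (((n : ℝ) + 3) ^ 2 / (q ^ 2 * z)) := by
    have h10 : 2304 * ((n : ℝ) + 3) ^ 2 / (q ^ 2 * z)
        = 2304 * (((n : ℝ) + 3) ^ 2 / (q ^ 2 * z)) := by ring
    rw [h10] at h7
    linarith
  calc 3 / (2 * (q ^ 2 * z ^ 2 / 576)) * _ ≤ 3 / (2 * (q ^ 2 * z ^ 2 / 576)) *
        (2306 * (((n : ℝ) + 3) ^ 2 / (q ^ 2 * z))) := by
        apply mul_le_mul_of_nonneg_left h9 (by positivity)
    _ = 1992384 * ((n : ℝ) + 3) ^ 2 / (q ^ 4 * z ^ 3) := by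
        field_simp
        ring

theorem le_pd1 {n : ℕ} (hn : 3 ≤ n) :
    ((1 / 2 : ℝ) ^ n) ^ 2 / (512 * Real.exp 1 * (zz n ^ 2 + 1)) ≤ pd c1 (tt n) := by
  have ht2 := tt_two hn
  have hz := zz_two n
  have hz0 := zz_pos n
  have hS : (1 / 2 : ℝ) ^ n ≤ c1.S (zz n ^ 2 + 1) - c1.S (zz n ^ 2) := by
    rw [c1_S_X, c1_S_Y, Finset.sum_range_succ]
    have : Real.arctan (zz n ^ 2) ≤ Real.arctan (zz n ^ 2 + 1) :=
      Real.arctan_strictMono.monotone (by linarith)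
    linarith
  have hbig := zz_big hn
  set q := (1 / 2 : ℝ) ^ n with hq
  have hq0 : 0 < q := by positivity
  have hq1 : q ≤ 1 := pow_le_one₀ (by norm_num) (by norm_num)
  have hqz : 4 ≤ q * zz n ^ 2 := by
    have h1 : (4 : ℝ) ≤ 64 ^ n := by
      calc (4 : ℝ) ≤ 64 ^ 3 := by norm_num
        _ ≤ 64 ^ n := pow_le_pow_right₀ (by norm_num) hn
    have h2 : q ^ 6 ≤ q := by
      calc q ^ 6 ≤ q ^ 1 := pow_le_pow_of_le_one hq0.le hq1 (by norm_num)
        _ = q := pow_one q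
    calc (4 : ℝ) ≤ zz n * q ^ 6 := by linarith
      _ ≤ zz n ^ 2 * q := by
          apply mul_le_mul _ h2 (by positivity) (by positivity)
          nlinarith
      _ = q * zz n ^ 2 := by ring
  have h1 := pd_lower c1 c1_odd c1_bdd (t := tt n) (ε := q / (64 * (zz n ^ 2 + 1)))
    (ε' := 4 / (q * zz n ^ 2)) (q := q) (X := zz n ^ 2 + 1) (Y := zz n ^ 2) ht2
    (by positivity) ?_ ?_ hq0 (by positivity) (by positivity) hS ?_ ?_ ?_
  · refine le_trans (le_of_eq ?_) h1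
    field_simp
    ring
  · rw [div_le_div_iff₀ (by positivity) (by positivity)]
    have : q * (q * zz n ^ 2) ≤ 1 * (1 * zz n ^ 2) := by gcongr
    nlinarith [sq_nonneg (zz n)]
  · rw [div_le_one (by positivity)]; exact hqz
  · field_simp
  · field_simp
  · unfold tt
    rw [← hq]
    field_simp
    ring

theorem ratio_big {n : ℕ} (hn : 3 ≤ n) :
    (16 : ℝ) ^ n / 30000000000 ≤ pd c1 (tt n) / pd c0 (tt n) := by
  have h1 := pd0_le hn
  have h2 := le_pd1 hn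
  have h3 := zz_big hn
  have h4 := sq_le_pow hn
  have hz := zz_two n
  have hz0 := zz_pos n
  have hp0 : 0 < pd c0 (tt n) := pd_pos c0 (by linarith [tt_two hn])
  rw [le_div_iff₀ hp0]
  refine le_trans ?_ h2
  refine le_trans (mul_le_mul_of_nonneg_left h1 (by positivity)) ?_
  set q := (1 / 2 : ℝ) ^ n with hq
  have hq0 : 0 < q := by positivity
  set z := zz n with hzdef
  have he : Real.exp 1 ≤ 3 := by linarith [Real.exp_one_lt_d9]
  have e1 : q ^ 2 / (512 * 3 * (2 * z ^ 2)) ≤ q ^ 2 / (512 * Real.exp 1 * (z ^ 2 + 1)) := by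
    apply div_le_div_of_nonneg_left (by positivity) (by positivity)
    have : z ^ 2 + 1 ≤ 2 * z ^ 2 := by nlinarith
    calc 512 * Real.exp 1 * (z ^ 2 + 1) ≤ 512 * 3 * (2 * z ^ 2) := by gcongr
      _ = 512 * 3 * (2 * z ^ 2) := rfl
  refine le_trans ?_ e1
  have e2 : (16 : ℝ) ^ n / 30000000000 * (1992384 * ((n : ℝ) + 3) ^ 2 / (q ^ 4 * z ^ 3))
      ≤ (16 : ℝ) ^ n / 30000000000 * (1992384 * (4 * 4 ^ n) / (q ^ 4 * z ^ 3)) := by
    gcongr
  refine e2.trans ?_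
  have e3 : (16 : ℝ) ^ n / 30000000000 * (1992384 * (4 * 4 ^ n) / (q ^ 4 * z ^ 3))
      = 64 ^ n * (7969536 / 30000000000) / (q ^ 4 * z ^ 3) := by
    have : (64 : ℝ) ^ n = 16 ^ n * 4 ^ n := by rw [← mul_pow]; norm_num
    rw [this]
    field_simp
    ring
  rw [e3]
  have e4 : (64 : ℝ) ^ n * (7969536 / 30000000000) / (q ^ 4 * z ^ 3)
      ≤ (z * q ^ 6) * (7969536 / 30000000000) / (q ^ 4 * z ^ 3) := by
    gcongr
  refine e4.trans ?_
  have e5 : (z * q ^ 6) * (7969536 / 30000000000) / (q ^ 4 * z ^ 3)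
      = q ^ 2 / z ^ 2 * (7969536 / 30000000000) := by
    field_simp
  have e6 : q ^ 2 / (512 * 3 * (2 * z ^ 2)) = q ^ 2 / z ^ 2 * (1 / 3072) := by
    field_simp
    ring
  rw [e5, e6]
  apply mul_le_mul_of_nonneg_left _ (by positivity)
  norm_num

end

end Pool.Agent.Helper406.HK
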