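import Pool.Agent.Helper406.HK.Jump

set_option autoImplicit false
set_option linter.unusedSectionVars false

open MeasureTheory Set Filter Topology InnerProductSpace
open scoped ContDiff ComplexConjugate

namespace Pool.Agent.Helper406.HK

noncomputable section

theorem Een_pos_of (c : Coef) {ε : ℝ} (h0 : 0 < ε) (h1 : ε ≤ 1) (u : Test)
    (hu : (u : ℝ → ℂ) 0 = 1) :
    0 < ε * (∫ x, ‖(u : ℝ → ℂ) x‖ ^ 2) + energy c u := by
  rw [← Een_emb]
  have h2 : emb c u ≠ 0 := by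
    intro h
    have := inner_gv_emb c 0 u
    rw [h, inner_zero_right, hu] at this
    exact zero_ne_one this
  have h3 : 0 < ‖emb c u‖ := norm_pos_iff.mpr h2
  exact lt_of_lt_of_le (by positivity) (Een_nonneg (pr_norm c) h0 h1 _)

theorem int_sq_le {u : Test} {Y : ℝ} (hY : 0 < Y) (h1 : ∀ x, ‖(u : ℝ → ℂ) x‖ ≤ 1)
    (h2 : ∀ x, Y ≤ |x| → (u : ℝ → ℂ) x = 0) : ∫ x, ‖(u : ℝ → ℂ) x‖ ^ 2 ≤ 2 * Y := by
  have h3 : ∫ x, ‖(u : ℝ → ℂ) x‖ ^ 2 ≤ ∫ x, (Icc (-Y) Y).indicator (fun _ => (1 : ℝ)) x := by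
    apply integral_mono (tint_sq u)
    · rw [integrable_indicator_iff measurableSet_Icc]
      exact integrableOn_const (by simp)
    · intro x
      by_cases hx : x ∈ Icc (-Y) Y
      · rw [indicator_of_mem hx]
        exact pow_le_one₀ (norm_nonneg _) (h1 x)
      · rw [indicator_of_notMem hx]
        have : Y ≤ |x| := by
          by_contra h
          push Not at h
          rw [abs_lt] at h
          exact hx ⟨h.1.le, h.2.le⟩
        simp [h2 x this]
  rw [integral_indicator measurableSet_Icc, setIntegral_const] at h3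
  simp only [Measure.real, Real.volume_Icc, smul_eq_mul, mul_one] at h3
  rw [ENNReal.toReal_ofReal (by linarith)] at h3
  linarith

theorem le_int_sq {u : Test} {X : ℝ} (hX : 0 < X) (h1 : ∀ x, |x| ≤ X → (u : ℝ → ℂ) x = 1) :
    2 * X ≤ ∫ x, ‖(u : ℝ → ℂ) x‖ ^ 2 := by
  have h2 := interval_le_integral (tint_sq u) (fun _ => sq_nonneg _) (p := -X) (q := X)
    (by linarith)
  have h3 : ∫ x in (-X)..X, ‖(u : ℝ → ℂ) x‖ ^ 2 = ∫ x in (-X)..X, (1 : ℝ) := by
    apply intervalIntegral.integral_congr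
    intro x hx
    rw [uIcc_of_le (by linarith)] at hx
    simp only
    rw [h1 x (abs_le.mpr hx)]
    simp
  rw [h3] at h2
  simp at h2
  linarith

theorem S_zero (c : Coef) (hodd : ∀ x, c.S (-x) = - c.S x) : c.S 0 = 0 := by
  have := hodd 0
  simp at this
  linarith

theorem MM_lower (c : Coef) (hodd : ∀ x, c.S (-x) = - c.S x) {η X : ℝ} (h0 : 0 < η)
    (h1 : η ≤ 1) (hX : 0 < X) : (1 / 2) * (c.S X - η * X * c.S X ^ 2) ≤ MM c η := by
  have hS0 := S_zero c hodd
  have hSX : 0 < c.S X := by rw [← hS0]; exact c.S_strictMono hX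
  have h2 : ∀ s, 0 < s → s < c.S X → 1 / (2 * η * X + 2 / s) ≤ MM c η := by
    intro s hs0 hs
    obtain ⟨u, hu1, hu2, hu3, hu4⟩ := exists_test c hodd (X := 0) (Y := X) le_rfl hX hs0
      (by rw [hS0]; linarith)
    have hu0 : (u : ℝ → ℂ) 0 = 1 := hu1 0 (by simp)
    refine le_trans ?_ (le_MM_of c h0 h1 u hu0)
    apply one_div_le_one_div_of_le (Een_pos_of c h0 h1 u hu0)
    have h3 := int_sq_le hX hu2 hu3
    have h4 : η * (∫ x, ‖(u : ℝ → ℂ) x‖ ^ 2) ≤ η * (2 * X) := by gcongr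
    linarith
  have h3 : 1 / (2 * η * X + 2 / c.S X) ≤ MM c η := by
    have hc : ContinuousAt (fun s => 1 / (2 * η * X + 2 / s)) (c.S X) := by
      apply ContinuousAt.div continuousAt_const
      · exact continuousAt_const.add (continuousAt_const.div continuousAt_id hSX.ne')
      · positivity
    have ht : Tendsto (fun s => 1 / (2 * η * X + 2 / s)) (𝓝[<] (c.S X))
        (𝓝 (1 / (2 * η * X + 2 / c.S X))) := hc.tendsto.mono_left nhdsWithin_le_nhds
    apply le_of_tendsto ht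
    have e1 : ∀ᶠ s in 𝓝[<] (c.S X), s < c.S X := eventually_nhdsWithin_of_forall (fun _ h => h)
    have e2 : ∀ᶠ s in 𝓝[<] (c.S X), 0 < s :=
      (lt_mem_nhds hSX).filter_mono nhdsWithin_le_nhds
    filter_upwards [e1, e2] with s hs1 hs2
    exact h2 s hs2 hs1
  refine le_trans ?_ h3
  rw [le_div_iff₀ (by positivity)]
  have e1 : (1 / 2) * (c.S X - η * X * c.S X ^ 2) * (2 * η * X + 2 / c.S X)
      = 1 - (η * X * c.S X) ^ 2 := by
    field_simp
    ring
  rw [e1]
  nlinarith [sq_nonneg (η * X * c.S X)]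

theorem hardy (c : Coef) {C : ℝ} (hC : ∀ x, |c.S x| ≤ C) (u : Test) (x : ℝ) :
    ‖(u : ℝ → ℂ) x‖ ^ 2 ≤ 2 * C * energy c u := by
  obtain ⟨R, hR⟩ := (tcs u).isCompact.isBounded.subset_closedBall 0
  set q := max (x + 1) (R + 1) with hq
  have hxq : x < q := lt_of_lt_of_le (by linarith) (le_max_left _ _)
  have hRq : R < q := lt_of_lt_of_le (by linarith) (le_max_right _ _)
  have huq : (u : ℝ → ℂ) q = 0 := by
    by_contra h
    have h1 := hR (subset_tsupport _ (Function.mem_support.mpr h))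
    rw [mem_closedBall_zero_iff, Real.norm_eq_abs] at h1
    linarith [le_abs_self q]
  have h2 := norm_sub_sq_le c (tcd u) hxq ⟨le_refl _, hxq.le⟩ ⟨hxq.le, le_refl _⟩
  rw [huq, sub_zero] at h2
  refine h2.trans ?_
  have h3 := interval_le_integral (tint_en c u)
    (fun z => mul_nonneg (c.a_pos z).le (sq_nonneg _)) hxq.le
  have h4 : c.S q - c.S x ≤ 2 * C := by
    have := abs_le.mp (hC q)
    have := abs_le.mp (hC x)
    linarith
  have h5 : 0 < c.S q - c.S x := sub_pos.mpr (c.S_strictMono hxq)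
  exact mul_le_mul h4 h3 (intervalIntegral.integral_nonneg hxq.le
    (fun z _ => mul_nonneg (c.a_pos z).le (sq_nonneg _))) (by linarith)

/-- the Hardy weight -/
def rho (C x : ℝ) : ℝ := (2 * C * Real.pi)⁻¹ * (1 + x ^ 2)⁻¹

theorem rho_smooth (C : ℝ) : ContDiff ℝ ∞ (rho C) := by
  unfold rho
  apply contDiff_const.mul
  apply ContDiff.inv (by fun_prop)
  intro x
  positivity

theorem rho_pos {C : ℝ} (hC : 0 < C) (x : ℝ) : 0 < rho C x := by
  unfold rho
  have := Real.pi_pos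
  positivity

theorem hardy_int (c : Coef) {C : ℝ} (hC0 : 0 < C) (hC : ∀ x, |c.S x| ≤ C) (u : Test) :
    ∫ x, rho C x * ‖(u : ℝ → ℂ) x‖ ^ 2 ≤ energy c u := by
  have hpi := Real.pi_pos
  have h1 : ∀ x, rho C x * ‖(u : ℝ → ℂ) x‖ ^ 2 ≤ rho C x * (2 * C * energy c u) := fun x =>
    mul_le_mul_of_nonneg_left (hardy c hC u x) (rho_pos hC0 x).le
  have i1 : Integrable (fun x => rho C x * ‖(u : ℝ → ℂ) x‖ ^ 2) := by
    apply Continuous.integrable_of_hasCompactSupport
      ((rho_smooth C).continuous.mul ((tcd u).continuous.norm.pow 2))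
    exact (sq_cs (tcs u)).mul_left
  have i2 : Integrable (fun x => rho C x * (2 * C * energy c u)) := by
    unfold rho
    exact ((integrable_inv_one_add_sq).const_mul _).mul_const _
  refine (integral_mono i1 i2 h1).trans ?_
  rw [integral_mul_const]
  unfold rho
  rw [integral_const_mul, integral_univ_inv_one_add_sq]
  apply le_of_eq
  field_simp

theorem critical_of (c : Coef) (hodd : ∀ x, c.S (-x) = - c.S x) (hS : Tendsto c.S atTop atTop)
    {V : ℝ → ℝ} (hVc : Continuous V) (hVs : HasCompactSupport V) (hV0 : ∀ x, 0 ≤ V x)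
    (hVne : V ≠ 0) :
    ∃ u : Test, energy c u - ∫ x, V x * ‖(u : ℝ → ℂ) x‖ ^ 2 < 0 := by
  obtain ⟨R, hR⟩ := hVs.isCompact.isBounded.subset_closedBall 0
  set X := max R 1 with hX
  have hX0 : 0 < X := lt_of_lt_of_le one_pos (le_max_right _ _)
  have hVX : ∀ x, V x ≠ 0 → |x| ≤ X := by
    intro x hx
    have h1 := hR (subset_tsupport _ (Function.mem_support.mpr hx))
    rw [mem_closedBall_zero_iff, Real.norm_eq_abs] at h1
    exact h1.trans (le_max_left _ _)
  have hm : 0 < ∫ x, V x := by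
    obtain ⟨x, hx⟩ := Function.ne_iff.mp hVne
    exact hVc.integral_pos_of_hasCompactSupport_nonneg_nonzero hVs hV0 hx
  set m := ∫ x, V x with hmdef
  obtain ⟨Y, hY1, hY2⟩ : ∃ Y, X < Y ∧ 4 / m < c.S Y - c.S X := by
    have h1 := hS.eventually (eventually_gt_atTop (4 / m + c.S X))
    obtain ⟨Y, h2, h3⟩ := (h1.and (eventually_gt_atTop X)).exists
    exact ⟨Y, h3, by linarith⟩
  obtain ⟨u, hu1, hu2, hu3, hu4⟩ := exists_test c hodd hX0.le hY1 (by positivity) hY2
  refine ⟨u, ?_⟩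
  have h1 : ∫ x, V x * ‖(u : ℝ → ℂ) x‖ ^ 2 = m := by
    rw [hmdef]
    congr 1
    funext x
    by_cases hx : V x = 0
    · rw [hx, zero_mul]
    · rw [hu1 x (hVX x hx)]
      simp
  rw [h1]
  have h2 : 2 / (4 / m) = m / 2 := by field_simp; norm_num
  rw [h2] at hu4
  linarith

theorem norm_test (c : Coef) (v : Test) (hv : 0 < ∫ x, ‖(v : ℝ → ℂ) x‖ ^ 2) :
    ∃ u : Test, (∫ x, ‖(u : ℝ → ℂ) x‖ ^ 2 = 1) ∧
      energy c u = energy c v / ∫ x, ‖(v : ℝ → ℂ) x‖ ^ 2 := by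
  set N := ∫ x, ‖(v : ℝ → ℂ) x‖ ^ 2 with hN
  set r : ℂ := (((√N)⁻¹ : ℝ) : ℂ) with hr
  have hr2 : ‖r‖ ^ 2 = 1 / N := by
    rw [hr, Complex.norm_real, Real.norm_eq_abs, sq_abs, inv_pow, Real.sq_sqrt hv.le, one_div]
  refine ⟨r • v, ?_, ?_⟩
  · have h1 : ∀ x, ‖((r • v : Test) : ℝ → ℂ) x‖ ^ 2 = (1 / N) * ‖(v : ℝ → ℂ) x‖ ^ 2 := by
      intro x
      simp only [Submodule.coe_smul, Pi.smul_apply, smul_eq_mul, norm_mul, mul_pow, hr2]
    simp_rw [h1]
    rw [integral_const_mul, ← hN]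
    field_simp
  · unfold energy
    have h1 : ∀ x, c.a x * ‖deriv ((r • v : Test) : ℝ → ℂ) x‖ ^ 2
        = (1 / N) * (c.a x * ‖deriv (v : ℝ → ℂ) x‖ ^ 2) := by
      intro x
      simp only [Submodule.coe_smul]
      rw [deriv_const_smul_field, norm_smul, mul_pow, hr2]
      ring
    simp_rw [h1]
    rw [integral_const_mul]
    field_simp

theorem inf_zero_of (c : Coef) (hodd : ∀ x, c.S (-x) = - c.S x) {δ X Y s : ℝ} (hX : 0 < X)
    (hXY : X < Y) (hs0 : 0 < s) (hs : s < c.S Y - c.S X) (hδ : 1 / (s * X) < δ) :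
    ∃ u : Test, (∫ x, ‖(u : ℝ → ℂ) x‖ ^ 2 = 1) ∧ energy c u < δ := by
  obtain ⟨v, hv1, hv2, hv3, hv4⟩ := exists_test c hodd hX.le hXY hs0 hs
  have h1 := le_int_sq hX hv1
  have h2 : 0 < ∫ x, ‖(v : ℝ → ℂ) x‖ ^ 2 := by linarith
  obtain ⟨u, hu1, hu2⟩ := norm_test c v h2
  refine ⟨u, hu1, ?_⟩
  rw [hu2]
  refine lt_of_le_of_lt ?_ hδ
  calc energy c v / ∫ x, ‖(v : ℝ → ℂ) x‖ ^ 2 ≤ (2 / s) / (2 * X) := by
        apply div_le_div₀ (by positivity) hv4 (by positivity) h1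
    _ = 1 / (s * X) := by field_simp

theorem pr_gv_ne (c : Coef) : pr c (gv c 0) ≠ 0 := by
  intro h
  have h1 := pr_ae c (gv c 0)
  rw [h] at h1
  have h2 : (fun x => (inner ℂ (gv c x) (gv c 0) : ℂ)) =ᵐ[volume] fun _ => (0 : ℂ) := by
    have h3 := Lp.coeFn_zero ℂ 2 (volume : Measure ℝ)
    filter_upwards [h1, h3] with x hx hx3
    rw [← hx, hx3]; rfl
  have hc : Continuous (fun x => (inner ℂ (gv c x) (gv c 0) : ℂ)) :=
    (gv_cont c).inner continuous_const
  have h4 := (hc.ae_eq_iff_eq volume continuous_const).mp h2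
  have h5' : (inner ℂ (gv c 0) (gv c 0) : ℂ) = 0 := congrFun h4 0
  have h5 : gv c 0 = 0 := inner_self_eq_zero.mp h5'
  -- a test function with value 1 at 0
  have h6 : ∀ u : Test, (u : ℝ → ℂ) 0 = 0 := by
    intro u
    have := inner_gv_emb c 0 u
    rw [h5, inner_zero_left] at this
    exact this.symm
  let b : ContDiffBump (0 : ℝ) := ⟨1, 2, one_pos, one_lt_two⟩
  have hb : ContDiff ℝ ∞ (fun x => ((b x : ℝ) : ℂ)) :=
    Complex.ofRealCLM.contDiff.comp b.contDiff
  have hb2 : HasCompactSupport (fun x => ((b x : ℝ) : ℂ)) :=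
    b.hasCompactSupport.comp_left (g := fun z : ℝ => (z : ℂ)) Complex.ofReal_zero
  have h7 := h6 ⟨fun x => ((b x : ℝ) : ℂ), hb, hb2⟩
  have h8 : b 0 = 1 := b.one_of_mem_closedBall (by simp [b])
  have h9 : ((b 0 : ℝ) : ℂ) = 0 := h7
  rw [h8] at h9
  simp at h9

theorem id_le_bfun {t δ r : ℝ} (ht : 0 < t) (hδ : 0 < δ) (_hr0 : 0 ≤ r) (hr1 : r ≤ 1) :
    r ≤ δ + Real.exp (t * (1 / δ - 1)) * bfun t r := by
  have hb := bfun_nonneg t r
  rcases le_or_gt r δ with h | h
  · have : 0 ≤ Real.exp (t * (1 / δ - 1)) * bfun t r := by positivity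
    linarith
  · have hr : 0 < r := by linarith
    have h1 : 1 ≤ Real.exp (t * (1 / δ - 1)) * bfun t r := by
      unfold bfun
      rw [if_pos hr]
      have h2 : Real.exp (t * (1 / δ - 1)) * (r⁻¹ ^ 2 * Real.exp (-(t * (1 / r - 1))))
          = r⁻¹ ^ 2 * Real.exp (t * (1 / δ - 1) + -(t * (1 / r - 1))) := by
        rw [Real.exp_add]; ring
      rw [h2]
      have h3 : 1 ≤ r⁻¹ ^ 2 := by
        have : 1 ≤ r⁻¹ := (one_le_inv₀ hr).mpr hr1
        nlinarith
      have h4 : 1 ≤ Real.exp (t * (1 / δ - 1) + -(t * (1 / r - 1))) := by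
        apply Real.one_le_exp
        have : 1 / r ≤ 1 / δ := one_div_le_one_div_of_le hδ h.le
        nlinarith
      nlinarith
    linarith

theorem pdiag_pos {H K : Type*} [NormedAddCommGroup H] [InnerProductSpace ℂ H] [CompleteSpace H]
    [NormedAddCommGroup K] [InnerProductSpace ℂ K] [CompleteSpace K]
    {π : K →L[ℂ] H} (hπ : ‖π‖ ≤ 1) {g : K} (hg : π g ≠ 0) {t : ℝ} (ht : 0 < t) :
    0 < pdiag π g t := by
  have hsa := Rop_sa π
  have hc : ContinuousOn (bfun t) (spectrum ℝ (Rop π)) := (bfun_cont ht).continuousOn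
  by_contra hcon
  push Not at hcon
  have h1 : ∀ δ : ℝ, 0 < δ → (inner ℂ (π g) (Rop π (π g)) : ℂ).re ≤ δ * ‖π g‖ ^ 2 := by
    intro δ hδ
    have h2 := inner_cfc_mono hπ (f := fun r => r)
      (f' := fun r => δ + Real.exp (t * (1 / δ - 1)) * bfun t r) continuousOn_id
      (continuousOn_const.add (hc.const_smul (Real.exp (t * (1 / δ - 1)))))
      (fun r h0 h1 => id_le_bfun ht hδ h0 h1) (π g)
    have hc2 : ContinuousOn (fun r => Real.exp (t * (1 / δ - 1)) * bfun t r)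
        (spectrum ℝ (Rop π)) := hc.const_smul (Real.exp (t * (1 / δ - 1)))
    rw [cfc_id' ℝ (Rop π), cfc_const_add δ _ (Rop π) hc2,
      cfc_const_mul _ _ _ hc, Algebra.algebraMap_eq_smul_one] at h2
    refine h2.trans ?_
    rw [_root_.add_apply, _root_.smul_apply, _root_.smul_apply, inner_add_right,
      ← Complex.coe_smul, ← Complex.coe_smul, inner_smul_right, inner_smul_right, Complex.add_re,
      Complex.re_ofReal_mul, Complex.re_ofReal_mul]
    have h3 : (inner ℂ (π g) ((1 : H →L[ℂ] H) (π g)) : ℂ).re = ‖π g‖ ^ 2 := by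
      rw [_root_.one_apply_eq_self, inner_self_eq_norm_sq_to_K]
      norm_cast
    rw [h3]
    have h4 : Real.exp (t * (1 / δ - 1)) *
        (inner ℂ (π g) (cfc (bfun t) (Rop π) (π g)) : ℂ).re ≤ 0 :=
      mul_nonpos_of_nonneg_of_nonpos (Real.exp_pos _).le hcon
    linarith
  have h5 : (inner ℂ (π g) (Rop π (π g)) : ℂ).re ≤ 0 := by
    by_contra h
    push Not at h
    have hn : 0 < ‖π g‖ ^ 2 := by
      have := norm_pos_iff.mpr hg
      positivity
    have h6 := h1 ((inner ℂ (π g) (Rop π (π g)) : ℂ).re / (2 * ‖π g‖ ^ 2)) (by positivity)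
    have h7 : (inner ℂ (π g) (Rop π (π g)) : ℂ).re / (2 * ‖π g‖ ^ 2) * ‖π g‖ ^ 2
        = (inner ℂ (π g) (Rop π (π g)) : ℂ).re / 2 := by
      field_simp
    rw [h7] at h6
    linarith
  have h6 : (inner ℂ (π g) (Rop π (π g)) : ℂ).re
      = ‖ContinuousLinearMap.adjoint π (π g)‖ ^ 2 := by
    unfold Rop
    rw [ContinuousLinearMap.comp_apply, ← ContinuousLinearMap.adjoint_inner_left,
      inner_self_eq_norm_sq_to_K]
    norm_cast
  rw [h6] at h5
  have h7 : ContinuousLinearMap.adjoint π (π g) = 0 := by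
    have : ‖ContinuousLinearMap.adjoint π (π g)‖ = 0 := by
      nlinarith [norm_nonneg (ContinuousLinearMap.adjoint π (π g))]
    exact norm_eq_zero.mp this
  apply hg
  have h8 : (inner ℂ (π g) (π g) : ℂ) = 0 := by
    rw [← ContinuousLinearMap.adjoint_inner_right, h7, inner_zero_right]
  exact inner_self_eq_zero.mp h8

end

end Pool.Agent.Helper406.HK
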