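import Pool.Agent.Helper406.HK.Num

set_option autoImplicit false
set_option linter.unusedSectionVars false

open MeasureTheory Set Filter Topology InnerProductSpace
open scoped ContDiff ComplexConjugate

namespace Pool.Agent.Helper406.HK

noncomputable section

theorem exists_approx (c : Coef) (k : KS c) :
    ∃ u : ℕ → Test, Tendsto (fun n => emb c (u n)) atTop (𝓝 k) := by
  have h1 : k ∈ closure (Set.range (emb c)) := emb_dense c k
  rw [mem_closure_iff_seq_limit] at h1
  obtain ⟨s, hs, hlim⟩ := h1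
  choose u hu using hs
  refine ⟨u, ?_⟩
  simp_rw [hu]
  exact hlim

theorem toLp_sub_norm (u v : Test) :
    ‖(tmemLp u).toLp _ - (tmemLp v).toLp _‖ ^ 2 = ∫ x, ‖((u - v : Test) : ℝ → ℂ) x‖ ^ 2 := by
  rw [← norm_toLp_sq (tmemLp (u - v))]
  congr 2

theorem resolvent_unique (c : Coef) (f F : L2) (u : ℕ → Test)
    (h1 : Tendsto (fun n => (tmemLp (u n)).toLp _) atTop (𝓝 F))
    (h2 : Tendsto (fun p : ℕ × ℕ => energy c ((u p.1 - u p.2 : Test) : ℝ → ℂ)) atTop (𝓝 0))
    (h3 : ∀ v : Test, Tendsto (fun n => (inner ℂ (emb c v) (emb c (u n)) : ℂ)) atTop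
      (𝓝 (∫ x, conj ((v : ℝ → ℂ) x) * f x))) : F = Rc c f := by
  have hc : CauchySeq (fun n => emb c (u n)) := by
    rw [cauchySeq_iff_tendsto_dist_atTop_0]
    have e1 : ∀ p : ℕ × ℕ, dist (emb c (u p.1)) (emb c (u p.2))
        = √(dist ((tmemLp (u p.1)).toLp _) ((tmemLp (u p.2)).toLp _) ^ 2
          + energy c ((u p.1 - u p.2 : Test) : ℝ → ℂ)) := by
      intro p
      rw [dist_eq_norm, dist_eq_norm, toLp_sub_norm, ← norm_emb_sq, map_sub,
        Real.sqrt_sq (norm_nonneg _)]
    simp_rw [e1]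
    have e2 : Tendsto (fun p : ℕ × ℕ => dist ((tmemLp (u p.1)).toLp _)
        ((tmemLp (u p.2)).toLp _)) atTop (𝓝 0) :=
      cauchySeq_iff_tendsto_dist_atTop_0.mp h1.cauchySeq
    have e3 := ((e2.pow 2).add h2).sqrt
    simpa using e3
  obtain ⟨k, hk⟩ := cauchySeq_tendsto_of_complete hc
  have hFk : F = pr c k := by
    have h4 : Tendsto (fun n => pr c (emb c (u n))) atTop (𝓝 (pr c k)) :=
      ((pr c).continuous.tendsto k).comp hk
    exact tendsto_nhds_unique h1 h4
  have h5 : ∀ v : Test, (inner ℂ (emb c v) k : ℂ)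
      = inner ℂ (emb c v) (ContinuousLinearMap.adjoint (pr c) f) := by
    intro v
    have h6 : Tendsto (fun n => (inner ℂ (emb c v) (emb c (u n)) : ℂ)) atTop
        (𝓝 (inner ℂ (emb c v) k)) := ((innerSL ℂ (emb c v)).continuous.tendsto k).comp hk
    have h7 := tendsto_nhds_unique h6 (h3 v)
    rw [h7, ContinuousLinearMap.adjoint_inner_right, pr_emb, L2.inner_def]
    apply integral_congr_ae
    filter_upwards [(tmemLp v).coeFn_toLp] with x hx
    rw [hx]
    simp [mul_comm]
  have h8 : ∀ w : KS c, (inner ℂ (k - ContinuousLinearMap.adjoint (pr c) f) w : ℂ) = 0 := by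
    apply dense_ineq c (p := fun w => (inner ℂ (k - ContinuousLinearMap.adjoint (pr c) f) w : ℂ) = 0)
    · exact isClosed_eq (innerSL ℂ (k - ContinuousLinearMap.adjoint (pr c) f)).continuous
        continuous_const
    · intro v
      have h9 : (inner ℂ (emb c v) (k - ContinuousLinearMap.adjoint (pr c) f) : ℂ) = 0 := by
        have := h5 v
        rw [inner_sub_right]
        exact sub_eq_zero.mpr this
      have h10 := congrArg conj h9
      rw [map_zero] at h10
      rw [← h10]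
      exact (inner_conj_symm (𝕜 := ℂ) (k - ContinuousLinearMap.adjoint (pr c) f) (emb c v)).symm
  have h9 := h8 (k - ContinuousLinearMap.adjoint (pr c) f)
  have h10 : k - ContinuousLinearMap.adjoint (pr c) f = 0 := inner_self_eq_zero.mp h9
  rw [hFk, Rc_apply, ← sub_eq_zero.mp h10]

/-- complex conjugation on `L²` -/
def cL : L2 →L[ℝ] L2 := (Complex.conjCLE : ℂ →L[ℝ] ℂ).compLpL 2 volume

theorem cL_ae (f : L2) : (cL f : ℝ → ℂ) =ᵐ[volume] fun x => conj (f x) := by
  have h1 := ContinuousLinearMap.coeFn_compLpL (μ := (volume : Measure ℝ)) (p := 2)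
    (Complex.conjCLE : ℂ →L[ℝ] ℂ) f
  filter_upwards [h1] with x hx
  rw [cL, hx]
  simp

/-- complex conjugation of test functions -/
def cT (u : Test) : Test := ⟨fun x => conj ((u : ℝ → ℂ) x),
  Complex.conjCLE.contDiff.comp (tcd u),
  (tcs u).comp_left (g := fun z : ℂ => conj z) (map_zero _)⟩

theorem cT_apply (u : Test) (x : ℝ) : (cT u : ℝ → ℂ) x = conj ((u : ℝ → ℂ) x) := rfl

theorem cT_deriv (u : Test) (x : ℝ) :
    deriv (cT u : ℝ → ℂ) x = conj (deriv (u : ℝ → ℂ) x) := by
  have h1 : HasDerivAt (u : ℝ → ℂ) (deriv (u : ℝ → ℂ) x) x := (tdiff u x).hasDerivAt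
  have h2 : HasDerivAt (fun y => Complex.conjCLE ((u : ℝ → ℂ) y))
      (Complex.conjCLE (deriv (u : ℝ → ℂ) x)) x :=
    (Complex.conjCLE : ℂ →L[ℝ] ℂ).hasFDerivAt.comp_hasDerivAt x h1
  exact h2.deriv

theorem cL_toLp (u : Test) : cL ((tmemLp u).toLp _) = (tmemLp (cT u)).toLp _ := by
  apply Lp.ext
  filter_upwards [cL_ae ((tmemLp u).toLp _), (tmemLp u).coeFn_toLp, (tmemLp (cT u)).coeFn_toLp]
    with x h1 h2 h3
  rw [h1, h2, h3, cT_apply]

theorem energy_cT (c : Coef) (u : Test) : energy c (cT u : ℝ → ℂ) = energy c (u : ℝ → ℂ) := by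
  unfold energy
  congr 1
  funext x
  rw [cT_deriv, RCLike.norm_conj]

theorem cT_sub (u v : Test) : cT u - cT v = cT (u - v) := by
  apply Subtype.ext
  funext x
  show conj ((u : ℝ → ℂ) x) - conj ((v : ℝ → ℂ) x) = conj (((u - v : Test) : ℝ → ℂ) x)
  rw [← map_sub]
  rfl

theorem inner_cT (c : Coef) (u v : Test) :
    (inner ℂ (emb c v) (emb c (cT u)) : ℂ) = conj (inner ℂ (emb c (cT v)) (emb c u) : ℂ) := by
  have h1 := inner_emb c v (cT u)
  have h2 := inner_emb c (cT v) u
  rw [h1, h2, map_add, ← integral_conj, ← integral_conj]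
  congr 1
  · congr 1
    funext x
    rw [cT_apply, cT_apply, map_mul, Complex.conj_conj]
  · congr 1
    funext x
    rw [cT_deriv, cT_deriv, map_mul, map_mul, Complex.conj_conj, Complex.conj_ofReal]

theorem Rc_conj (c : Coef) (f : L2) : Rc c (cL f) = cL (Rc c f) := by
  obtain ⟨u, hu⟩ := exists_approx c (ContinuousLinearMap.adjoint (pr c) f)
  symm
  apply resolvent_unique c (cL f) (cL (Rc c f)) (fun n => cT (u n))
  · have h1 : Tendsto (fun n => pr c (emb c (u n))) atTop (𝓝 (Rc c f)) :=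
      ((pr c).continuous.tendsto _).comp hu
    have h2 : Tendsto (fun n => cL (pr c (emb c (u n)))) atTop (𝓝 (cL (Rc c f))) :=
      (cL.continuous.tendsto _).comp h1
    refine h2.congr ?_
    intro n
    rw [pr_emb, cL_toLp]
  · have h1 : ∀ p : ℕ × ℕ, energy c ((cT (u p.1) - cT (u p.2) : Test) : ℝ → ℂ)
        = energy c ((u p.1 - u p.2 : Test) : ℝ → ℂ) := by
      intro p
      rw [cT_sub, energy_cT]
    simp_rw [h1]
    have h2 : Tendsto (fun p : ℕ × ℕ => dist (emb c (u p.1)) (emb c (u p.2)) ^ 2) atTop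
        (𝓝 (0 ^ 2)) := (cauchySeq_iff_tendsto_dist_atTop_0.mp hu.cauchySeq).pow 2
    rw [zero_pow two_ne_zero] at h2
    apply squeeze_zero (fun _ => energy_nonneg c _) _ h2
    intro p
    rw [dist_eq_norm, ← map_sub, norm_emb_sq]
    have : 0 ≤ ∫ x, ‖((u p.1 - u p.2 : Test) : ℝ → ℂ) x‖ ^ 2 :=
      integral_nonneg (fun _ => sq_nonneg _)
    linarith
  · intro v
    simp_rw [inner_cT]
    have h1 : Tendsto (fun n => (inner ℂ (emb c (cT v)) (emb c (u n)) : ℂ)) atTop
        (𝓝 (inner ℂ (emb c (cT v)) (ContinuousLinearMap.adjoint (pr c) f))) :=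
      ((innerSL ℂ (emb c (cT v))).continuous.tendsto _).comp hu
    have h2 := (Complex.continuous_conj.tendsto _).comp h1
    refine h2.trans_eq ?_
    congr 1
    rw [ContinuousLinearMap.adjoint_inner_right, pr_emb, L2.inner_def]
    show conj (∫ a, (inner ℂ (((tmemLp (cT v)).toLp _ : L2) a) (f a) : ℂ)) = _
    rw [← integral_conj]
    apply integral_congr_ae
    filter_upwards [(tmemLp (cT v)).coeFn_toLp, cL_ae f] with x hx hx2
    rw [hx, hx2, cT_apply]
    simp [mul_comm]

theorem fc_conj {H : Type*} [NormedAddCommGroup H] [InnerProductSpace ℂ H] [CompleteSpace H]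
    {R : H →L[ℂ] H} (hR : IsSelfAdjoint R) {σ : H → H} (hadd : ∀ x y, σ (x + y) = σ x + σ y)
    (hsmul : ∀ (r : ℝ) (x : H), σ ((r : ℂ) • x) = (r : ℂ) • σ x) {C : ℝ}
    (hC : ∀ x, ‖σ x‖ ≤ C * ‖x‖) (hcomm : ∀ x, σ (R x) = R (σ x)) {F : ℝ → ℝ}
    (hF : Continuous F) (x : H) : σ (fc F R x) = fc F R (σ x) := by
  -- polynomials
  have hpow : ∀ (n : ℕ) (x : H), σ ((R ^ n) x) = (R ^ n) (σ x) := by
    intro n
    induction n with
    | zero => intro x; simp
    | succ n ih =>
      intro x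
      rw [pow_succ]
      show σ ((R ^ n) (R x)) = (R ^ n) (R (σ x))
      rw [ih, hcomm]
  have hpoly : ∀ (P : Polynomial ℝ) (x : H),
      σ ((Polynomial.aeval R P) x) = (Polynomial.aeval R P) (σ x) := by
    intro P
    induction P using Polynomial.induction_on' with
    | add p q hp hq =>
      intro x
      rw [map_add, _root_.add_apply, _root_.add_apply, hadd, hp, hq]
    | monomial n a =>
      intro x
      rw [Polynomial.aeval_monomial, ← Algebra.smul_def]
      rw [_root_.smul_apply, _root_.smul_apply, ← Complex.coe_smul, ← Complex.coe_smul, hsmul,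
        hpow]
  have hsub : ∀ x y, σ (x - y) = σ x - σ y := by
    intro x y
    have h1 := hadd (x - y) y
    rw [sub_add_cancel] at h1
    rw [h1]; abel
  have hC0 : 0 ≤ |C| := abs_nonneg C
  have key : ∀ δ : ℝ, 0 < δ → ‖σ (fc F R x) - fc F R (σ x)‖ ≤ δ * (|C| * ‖x‖ + ‖σ x‖) := by
    intro δ hδ
    obtain ⟨P, hP⟩ := exists_polynomial_near_of_continuousOn (-‖R‖) ‖R‖ F hF.continuousOn δ hδ
    have h1 : ‖fc F R - Polynomial.aeval R P‖ ≤ δ := by
      unfold fc
      rw [← cfc_polynomial P R, ← cfc_sub F (fun x => P.eval x) R hF.continuousOn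
        P.continuous.continuousOn]
      apply norm_cfc_le hδ.le
      intro r hr
      have h2 : |r| ≤ ‖R‖ := by
        have := spectrum.norm_le_norm_mul_of_mem hr
        rcases subsingleton_or_nontrivial H with h | h
        · have : R = 0 := Subsingleton.elim _ _
          exfalso
          apply hr
          have h9 : (algebraMap ℝ (H →L[ℂ] H)) r - R = 1 := Subsingleton.elim _ _
          show IsUnit ((algebraMap ℝ (H →L[ℂ] H)) r - R)
          rw [h9]
          exact isUnit_one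
        · rw [norm_one, mul_one] at this
          exact this
      rw [abs_le] at h2
      have h3 := hP r ⟨h2.1, h2.2⟩
      rw [Real.norm_eq_abs, abs_sub_comm]
      exact h3.le
    have h2 : σ (fc F R x) - fc F R (σ x) = σ ((fc F R - Polynomial.aeval R P) x)
        - (fc F R - Polynomial.aeval R P) (σ x) := by
      rw [_root_.sub_apply, _root_.sub_apply, hsub, hpoly]
      abel
    rw [h2]
    calc ‖σ ((fc F R - Polynomial.aeval R P) x) - (fc F R - Polynomial.aeval R P) (σ x)‖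
        ≤ ‖σ ((fc F R - Polynomial.aeval R P) x)‖ + ‖(fc F R - Polynomial.aeval R P) (σ x)‖ :=
          norm_sub_le _ _
      _ ≤ |C| * (δ * ‖x‖) + δ * ‖σ x‖ := by
          apply add_le_add
          · refine (hC _).trans ?_
            apply mul_le_mul (le_abs_self C) _ (norm_nonneg _) hC0
            exact ContinuousLinearMap.le_of_opNorm_le _ h1 x
          · exact ContinuousLinearMap.le_of_opNorm_le _ h1 _
      _ = δ * (|C| * ‖x‖ + ‖σ x‖) := by ring
  have h0 : ‖σ (fc F R x) - fc F R (σ x)‖ ≤ 0 := by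
    apply le_of_forall_pos_le_add
    intro e he
    set A := |C| * ‖x‖ + ‖σ x‖ with hA
    have hA0 : 0 ≤ A := by positivity
    have h1 := key (e / (A + 1)) (by positivity)
    refine h1.trans ?_
    rw [zero_add, div_mul_eq_mul_div, div_le_iff₀ (by positivity)]
    nlinarith
  exact sub_eq_zero.mp (norm_le_zero_iff.mp h0)

theorem cL_smul (r : ℝ) (f : L2) : cL ((r : ℂ) • f) = (r : ℂ) • cL f := by
  apply Lp.ext
  filter_upwards [cL_ae ((r : ℂ) • f), Lp.coeFn_smul (r : ℂ) f, Lp.coeFn_smul (r : ℂ) (cL f),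
    cL_ae f] with x h1 h2 h3 h4
  rw [h1, h2, h3, Pi.smul_apply, Pi.smul_apply, h4, smul_eq_mul, smul_eq_mul, map_mul,
    Complex.conj_ofReal]

theorem heat_conj (c : Coef) {t : ℝ} (ht : 0 < t) (f : L2) :
    cL (fc (hfun t) (Rc c) f) = fc (hfun t) (Rc c) (cL f) :=
  fc_conj (Rc_sa c) (σ := fun f => cL f) (fun x y => map_add cL x y) (fun r x => cL_smul r x)
    (C := ‖cL‖) (fun x => cL.le_opNorm x) (fun x => (Rc_conj c x).symm) (hfun_cont ht) f

/-- uniqueness of continuous kernels -/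
theorem kernel_zero {D : ℝ → ℝ → ℂ} (hD : Continuous (fun z : ℝ × ℝ => D z.1 z.2))
    (h : ∀ p q : ℝ, p ≤ q → ∀ᵐ x, ∫ y in p..q, D x y = 0) (x y : ℝ) : D x y = 0 := by
  have h1 : ∀ p q : ℝ, p ≤ q → ∀ x, ∫ y in p..q, D x y = 0 := by
    intro p q hpq
    have hcont : Continuous (fun x => ∫ y in p..q, D x y) :=
      intervalIntegral.continuous_parametric_intervalIntegral_of_continuous' hD p q
    have h4 : (fun x => ∫ y in p..q, D x y) =ᵐ[volume] fun _ => (0 : ℂ) := h p q hpq
    have h5 := (hcont.ae_eq_iff_eq volume continuous_const).mp h4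
    intro x
    exact congrFun h5 x
  have hDx : Continuous (D x) := hD.comp (continuous_const.prodMk continuous_id)
  have h6 : HasDerivAt (fun q => ∫ y in (y - 1)..q, D x y) (D x y) y :=
    (hDx.integral_hasStrictDerivAt (y - 1) y).hasDerivAt
  have h7 : (fun q => ∫ y in (y - 1)..q, D x y) =ᶠ[𝓝 y] fun _ => (0 : ℂ) := by
    filter_upwards [lt_mem_nhds (show y - 1 < y by linarith)] with q hq
    exact h1 _ _ hq.le x
  have h8 : HasDerivAt (fun q => ∫ y in (y - 1)..q, D x y) 0 y :=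
    (hasDerivAt_const y (0 : ℂ)).congr_of_eventuallyEq h7
  exact h6.unique h8

theorem kernel_unique {A : L2 → L2} {p1 p2 : ℝ → ℝ → ℂ}
    (hc1 : Continuous (fun z : ℝ × ℝ => p1 z.1 z.2))
    (hc2 : Continuous (fun z : ℝ × ℝ => p2 z.1 z.2))
    (h1 : ∀ f : L2, (A f : ℝ → ℂ) =ᵐ[volume] fun x => ∫ y, p1 x y * f y)
    (h2 : ∀ f : L2, (A f : ℝ → ℂ) =ᵐ[volume] fun x => ∫ y, p2 x y * f y) (x y : ℝ) :
    p1 x y = p2 x y := by
  have key : ∀ p : ℝ → ℝ → ℂ, (∀ f : L2, (A f : ℝ → ℂ) =ᵐ[volume] fun x => ∫ y, p x y * f y) →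
      ∀ (a b : ℝ) (hab : a ≤ b), (A (indicatorConstLp 2 (measurableSet_Ioc (a := a) (b := b))
        (by simp) (1 : ℂ)) : ℝ → ℂ) =ᵐ[volume] fun x => ∫ y in a..b, p x y := by
    intro p hp a b hab
    have hm : MeasurableSet (Ioc a b) := measurableSet_Ioc
    have hfin : volume (Ioc a b) ≠ ⊤ := by simp
    filter_upwards [hp (indicatorConstLp 2 hm hfin (1 : ℂ))] with x hx
    rw [hx, intervalIntegral.integral_of_le hab, ← integral_indicator hm]
    apply integral_congr_ae
    filter_upwards [indicatorConstLp_coeFn (p := 2) (hs := hm) (hμs := hfin) (c := (1 : ℂ))]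
      with y hy
    rw [hy]
    by_cases hy2 : y ∈ Ioc a b
    · rw [indicator_of_mem hy2, indicator_of_mem hy2, mul_one]
    · rw [indicator_of_notMem hy2, indicator_of_notMem hy2, mul_zero]
  have h3 := kernel_zero (D := fun x y => p1 x y - p2 x y) (hc1.sub hc2) (by
    intro a b hab
    filter_upwards [key p1 h1 a b hab, key p2 h2 a b hab] with x hx1 hx2
    rw [intervalIntegral.integral_sub]
    · rw [← hx1, ← hx2, sub_self]
    · exact (hc1.comp (continuous_const.prodMk continuous_id)).intervalIntegrable _ _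
    · exact (hc2.comp (continuous_const.prodMk continuous_id)).intervalIntegrable _ _) x y
  exact sub_eq_zero.mp h3

theorem pk_conj (c : Coef) {t : ℝ} (ht : 0 < t) (x y : ℝ) :
    conj (pk c t x y) = pk c t x y := by
  apply kernel_unique (A := fun f => fc (hfun t) (Rc c) f) (p1 := fun x y => conj (pk c t x y))
    (p2 := fun x y => pk c t x y) (Complex.continuous_conj.comp (pk_cont c t)) (pk_cont c t) _
    (fun f => pk_kernel c ht f)
  intro f
  have h1 := pk_kernel c ht (cL f)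
  have h2 := cL_ae (fc (hfun t) (Rc c) f)
  have h3 := cL_ae f
  rw [← heat_conj c ht] at h1
  filter_upwards [h1, h2] with x hx1 hx2
  have h4 : (fc (hfun t) (Rc c) f : ℝ → ℂ) x = conj ((cL (fc (hfun t) (Rc c) f) : ℝ → ℂ) x) := by
    rw [hx2, Complex.conj_conj]
  rw [h4, hx1, ← integral_conj]
  apply integral_congr_ae
  filter_upwards [h3] with y hy
  rw [map_mul, hy, Complex.conj_conj]

/-- the real heat kernel -/
def pR (c : Coef) (t x y : ℝ) : ℝ := (pk c t x y).re

theorem pR_coe (c : Coef) {t : ℝ} (ht : 0 < t) (x y : ℝ) : ((pR c t x y : ℝ) : ℂ) = pk c t x y :=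
  Complex.conj_eq_iff_re.mp (pk_conj c ht x y)

theorem pR_cont (c : Coef) (t : ℝ) : Continuous (fun z : ℝ × ℝ => pR c t z.1 z.2) :=
  Complex.continuous_re.comp (pk_cont c t)

theorem pR_kernel (c : Coef) {t : ℝ} (ht : 0 < t) (f : L2) :
    (fc (hfun t) (Rc c) f : ℝ → ℂ) =ᵐ[volume] fun x => ∫ y, (pR c t x y : ℂ) * f y := by
  filter_upwards [pk_kernel c ht f] with x hx
  rw [hx]
  congr 1
  funext y
  rw [pR_coe c ht]

theorem pR_diag (c : Coef) (t : ℝ) : pR c t 0 0 = pd c t := rfl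

end

end Pool.Agent.Helper406.HK
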